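import Pool.Graph.R_seed8.Y227.SO.Dens

set_option autoImplicit false

/-!
The primes in a residue class: a lower bound for the sum of `log p / p`.
-/

open Filter Topology Finset

namespace Pool.Agent.Helper9.PC

/-- the primes up to `n` in the residue class `v` modulo `q` -/
def prc (q : ℕ) (v : ZMod q) (n : ℕ) : Finset ℕ :=
  (Icc 1 n).filter fun p => p.Prime ∧ ((p : ℕ) : ZMod q) = v

lemma mem_prc {q : ℕ} {v : ZMod q} {n p : ℕ} :
    p ∈ prc q v n ↔ p ≤ n ∧ p.Prime ∧ ((p : ℕ) : ZMod q) = v := by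
  unfold prc
  rw [mem_filter, mem_Icc]
  constructor
  · rintro ⟨⟨-, h1⟩, h2⟩; exact ⟨h1, h2⟩
  · rintro ⟨h1, h2⟩; exact ⟨⟨h2.1.one_lt.le, h1⟩, h2⟩

/-- the sum of the logarithms of these primes -/
noncomputable def thc (q : ℕ) (v : ZMod q) (n : ℕ) : ℝ := ∑ p ∈ prc q v n, Real.log p

lemma thc_nonneg (q : ℕ) (v : ZMod q) (n : ℕ) : 0 ≤ thc q v n :=
  sum_nonneg fun p _ => Real.log_natCast_nonneg p

lemma thc_lower (q : ℕ) [NeZero q] (v : (ZMod q)ˣ) {η : ℝ} (hη : 0 < η) :
    ∃ C : ℝ, 0 ≤ C ∧ ∀ n : ℕ, ((q.totient : ℝ)⁻¹ - η) * n - C ≤ thc q v n := by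
  classical
  have h1 := (Pool.Agent.Helper923.PNT.pnt_residueClass (q := q) (a := ((v : (ZMod q)ˣ) : ZMod q))
    v.isUnit).comp (tendsto_natCast_atTop_atTop (R := ℝ))
  have h2 : Tendsto (fun N : ℕ => Chebyshev.psi N / N - Chebyshev.theta N / N) atTop (𝓝 0) := by
    have a := Pool.Agent.Helper923.PNT.psi_div_tendsto.comp (tendsto_natCast_atTop_atTop (R := ℝ))
    have b := Pool.Agent.Helper923.PNT.theta_div_tendsto.comp (tendsto_natCast_atTop_atTop (R := ℝ))
    have := a.sub b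
    simpa [Function.comp_def] using this
  have h3 := h1.sub h2
  rw [sub_zero] at h3
  have h4 := h3.eventually (lt_mem_nhds (show (q.totient : ℝ)⁻¹ - η < (q.totient : ℝ)⁻¹ by linarith))
  obtain ⟨n₀, hn₀⟩ := (h4.and (eventually_ge_atTop 1)).exists_forall_of_atTop
  refine ⟨|(q.totient : ℝ)⁻¹ - η| * n₀, by positivity, fun N => ?_⟩
  rcases lt_or_ge N n₀ with hlt | hge
  · have h5 : ((q.totient : ℝ)⁻¹ - η) * N ≤ |(q.totient : ℝ)⁻¹ - η| * n₀ := by
      have e1 : ((q.totient : ℝ)⁻¹ - η) * N ≤ |(q.totient : ℝ)⁻¹ - η| * N :=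
        mul_le_mul_of_nonneg_right (le_abs_self _) (Nat.cast_nonneg _)
      have e2 : (N : ℝ) ≤ n₀ := by exact_mod_cast hlt.le
      exact e1.trans (mul_le_mul_of_nonneg_left e2 (abs_nonneg _))
    have := thc_nonneg q v N
    linarith
  obtain ⟨h5, h6⟩ := hn₀ N hge
  have hN0 : (0 : ℝ) < N := by exact_mod_cast h6
  simp only [Function.comp, Nat.floor_natCast] at h5
  set T' : ℝ := ∑ k ∈ Icc 1 N, ArithmeticFunction.vonMangoldt.residueClass
    ((v : (ZMod q)ˣ) : ZMod q) k with hT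
  have key : T' - (Chebyshev.psi N - Chebyshev.theta N) ≤ thc q v N := by
    have e1 : T' = ∑ k ∈ (Icc 1 N).filter Nat.Prime, ArithmeticFunction.vonMangoldt.residueClass
        ((v : (ZMod q)ˣ) : ZMod q) k + ∑ k ∈ (Icc 1 N).filter (fun k => ¬ Nat.Prime k),
        ArithmeticFunction.vonMangoldt.residueClass ((v : (ZMod q)ˣ) : ZMod q) k := by
      rw [hT, sum_filter_add_sum_filter_not]
    have e2 : ∑ k ∈ (Icc 1 N).filter (fun k => ¬ Nat.Prime k),
        ArithmeticFunction.vonMangoldt.residueClass ((v : (ZMod q)ˣ) : ZMod q) k ≤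
        Chebyshev.psi N - Chebyshev.theta N := by
      have h3 : Chebyshev.psi N - Chebyshev.theta N =
          ∑ k ∈ (Icc 1 N).filter (fun k => ¬ Nat.Prime k), ArithmeticFunction.vonMangoldt k := by
        rw [H332.PIT.psi_eq, H332.PIT.theta_eq, ← H332.PIT.Icc_eq,
          ← sum_filter_add_sum_filter_not (Icc 1 N) Nat.Prime]
        have h4 : ∑ k ∈ (Icc 1 N).filter Nat.Prime, ArithmeticFunction.vonMangoldt k =
            ∑ p ∈ (Icc 1 N).filter Nat.Prime, Real.log p := by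
          refine sum_congr rfl fun p hp => ?_
          rw [ArithmeticFunction.vonMangoldt_apply_prime (mem_filter.mp hp).2]
        rw [h4]
        ring
      rw [h3]
      exact sum_le_sum fun k _ => ArithmeticFunction.vonMangoldt.residueClass_le _ k
    have e3 : ∑ k ∈ (Icc 1 N).filter Nat.Prime, ArithmeticFunction.vonMangoldt.residueClass
        ((v : (ZMod q)ˣ) : ZMod q) k = thc q v N := by
      unfold thc prc
      rw [← filter_filter, sum_filter (s := (Icc 1 N).filter Nat.Prime)]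
      refine sum_congr rfl fun p hp => ?_
      have hp2 := (mem_filter.mp hp).2
      unfold ArithmeticFunction.vonMangoldt.residueClass
      rw [Set.indicator_apply]
      simp only [Set.mem_ofPred_eq]
      rw [ArithmeticFunction.vonMangoldt_apply_prime hp2]
    rw [e1, e3]
    linarith
  have h7 : ((q.totient : ℝ)⁻¹ - η) * N < T' - (Chebyshev.psi N - Chebyshev.theta N) := by
    have h8 : (q.totient : ℝ)⁻¹ - η < (T' - (Chebyshev.psi N - Chebyshev.theta N)) / N := by
      rw [sub_div, sub_div]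
      linarith
    rwa [lt_div_iff₀ hN0] at h8
  have : 0 ≤ |(q.totient : ℝ)⁻¹ - η| * n₀ := by positivity
  linarith

/-- Mertens' theorem, lower bound, in a residue class. -/
theorem mertens_class (q : ℕ) [NeZero q] (v : (ZMod q)ˣ) {η : ℝ} (hη : 0 < η) :
    ∃ C : ℝ, ∀ n : ℕ, 1 ≤ n → ((q.totient : ℝ)⁻¹ - η) * Real.log n - C ≤
      ∑ p ∈ prc q v n, Real.log p / p := by
  classical
  obtain ⟨C, hC0, hC⟩ := thc_lower q v hη
  have hident : ∀ n : ℕ, ∑ p ∈ prc q (v : ZMod q) n, Real.log p / p =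
      thc q v n / (n + 1) + ∑ k ∈ Icc 1 n, thc q v k / ((k : ℝ) * (k + 1)) := by
    intro n
    induction n with
    | zero => simp [prc, thc]
    | succ n ih =>
      have hstep : ∀ g : ℕ → ℝ, ∑ p ∈ prc q (v : ZMod q) (n + 1), g p =
          ∑ p ∈ prc q (v : ZMod q) n, g p +
            if (n + 1).Prime ∧ (((n + 1 : ℕ) : ℕ) : ZMod q) = v then g (n + 1) else 0 := by
        intro g
        unfold prc
        rw [sum_filter, sum_filter, sum_Icc_succ_top (by omega)]
      rw [hstep, ih, sum_Icc_succ_top (by omega)]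
      have h1 : thc q v (n + 1) = thc q v n +
          if (n + 1).Prime ∧ (((n + 1 : ℕ) : ℕ) : ZMod q) = v then Real.log ((n + 1 : ℕ) : ℝ) else 0 := by
        unfold thc
        rw [hstep]
      set a : ℝ := if (n + 1).Prime ∧ (((n + 1 : ℕ) : ℕ) : ZMod q) = v then
        Real.log ((n + 1 : ℕ) : ℝ) else 0 with ha
      have h2 : (if (n + 1).Prime ∧ (((n + 1 : ℕ) : ℕ) : ZMod q) = v then
          Real.log ((n + 1 : ℕ) : ℝ) / ((n + 1 : ℕ) : ℝ) else 0) = a / ((n : ℝ) + 1) := by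
        rw [ha]
        split_ifs <;> simp
      rw [h2, h1]
      have hn1 : (0 : ℝ) < (n : ℝ) + 1 := by positivity
      have hn2 : (0 : ℝ) < (n : ℝ) + 1 + 1 := by positivity
      push_cast
      field_simp
      ring
  refine ⟨C + 1, fun n hn => ?_⟩
  have hn0 : (0 : ℝ) < n := by exact_mod_cast hn
  have hlog : 0 ≤ Real.log n := Real.log_natCast_nonneg n
  have hnn : 0 ≤ ∑ p ∈ prc q (v : ZMod q) n, Real.log p / p :=
    sum_nonneg fun p _ => div_nonneg (Real.log_natCast_nonneg p) (Nat.cast_nonneg p)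
  rcases le_or_gt ((q.totient : ℝ)⁻¹ - η) 0 with hneg | hpos
  · have := mul_nonpos_of_nonpos_of_nonneg hneg hlog
    linarith
  have hβ1 : (q.totient : ℝ)⁻¹ - η ≤ 1 := by
    have h1 : (1 : ℝ) ≤ q.totient := by
      exact_mod_cast Nat.totient_pos.mpr (Nat.pos_of_ne_zero (NeZero.ne q))
    have h2 := inv_le_one_of_one_le₀ h1
    linarith
  rw [hident n]
  have h1 : 0 ≤ thc q v n / (n + 1) := div_nonneg (thc_nonneg _ _ _) (by positivity)
  have h2 : ∑ k ∈ Icc 1 n, ((((q.totient : ℝ)⁻¹ - η) * k - C) / ((k : ℝ) * (k + 1))) ≤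
      ∑ k ∈ Icc 1 n, thc q v k / ((k : ℝ) * (k + 1)) := by
    refine sum_le_sum fun k hk => ?_
    exact div_le_div_of_nonneg_right (hC k) (by positivity)
  have h3 : ∀ n : ℕ, ∑ k ∈ Icc 1 n, ((((q.totient : ℝ)⁻¹ - η) * k - C) / ((k : ℝ) * (k + 1))) =
      ((q.totient : ℝ)⁻¹ - η) * ((harmonic (n + 1) : ℚ) - 1 : ℝ) - C * (1 - 1 / ((n : ℝ) + 1)) := by
    intro n
    induction n with
    | zero => simp
    | succ n ih =>
      rw [sum_Icc_succ_top (by omega), ih, harmonic_succ (n + 1)]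
      have hn1 : (0 : ℝ) < (n : ℝ) + 1 := by positivity
      have hn2 : (0 : ℝ) < (n : ℝ) + 1 + 1 := by positivity
      push_cast
      field_simp
      ring
  have h4 : Real.log n ≤ (harmonic (n + 1) : ℚ) := by
    have h5 := log_add_one_le_harmonic (n + 1)
    refine le_trans (Real.log_le_log hn0 ?_) h5
    push_cast
    linarith
  have h6 : C * (1 - 1 / ((n : ℝ) + 1)) ≤ C := by
    have : 0 ≤ 1 / ((n : ℝ) + 1) := by positivity
    nlinarith
  have h7 : ((q.totient : ℝ)⁻¹ - η) * Real.log n ≤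
      ((q.totient : ℝ)⁻¹ - η) * (harmonic (n + 1) : ℚ) := mul_le_mul_of_nonneg_left h4 hpos.le
  rw [h3 n] at h2
  rw [mul_sub, mul_one] at h2
  linarith

end Pool.Agent.Helper9.PC
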