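import Mathlib

set_option autoImplicit false

/-!
Polynomial families of linear maps: the number of the parameters with a solution in a given
finite-dimensional space.
-/

namespace Pool.Agent.Helper9.PC

open Finset Module Polynomial

section vec

variable {K V : Type*} [Field K] [AddCommGroup V] [Module K V]

/-- The companion map. -/
def cmp {d : ℕ} (T : Fin d → End K V) : End K (Fin d → V) :=
  LinearMap.pi fun j => if h : (j : ℕ) + 1 < d then LinearMap.proj ⟨j + 1, h⟩ else
    ∑ k, T k ∘ₗ LinearMap.proj k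

lemma cmp_apply {d : ℕ} (T : Fin d → End K V) (v : Fin d → V) (j : Fin d) :
    cmp T v j = if h : (j : ℕ) + 1 < d then v ⟨j + 1, h⟩ else ∑ k, T k (v k) := by
  unfold cmp
  rw [LinearMap.pi_apply]
  split_ifs with h
  · rfl
  · simp

/-- Vectors `v` in `W` with `s^d v = ∑ s^k T_k v`, for many `s`. -/
theorem count_vec {d : ℕ} (hd : 1 ≤ d) (T : Fin d → End K V) (W : Submodule K V)
    [FiniteDimensional K W] (S : Finset K) (y : K → V)
    (hW : ∀ c ∈ S, y c ∈ W) (hy : ∀ c ∈ S, y c ≠ 0)
    (hsol : ∀ c ∈ S, c ^ d • y c = ∑ k : Fin d, c ^ (k : ℕ) • T k (y c)) :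
    S.card ≤ d * finrank K W := by
  classical
  let Φ := cmp T
  let v : S → (Fin d → V) := fun c k => (c : K) ^ (k : ℕ) • y c
  have hmem : ∀ c : S, v c ∈ Φ.eigenspace (c : K) := by
    intro c
    rw [Module.End.mem_eigenspace_iff]
    funext k
    show cmp T (v c) k = (c : K) • v c k
    rw [cmp_apply]
    split_ifs with h
    · simp only [v]
      rw [smul_smul, pow_succ']
    · have hk : (k : ℕ) + 1 = d := by
        have := k.2
        omega
      simp only [v, map_smul]
      rw [← hsol c c.2, smul_smul, ← pow_succ', hk]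
  have hne : ∀ c : S, v c ≠ 0 := by
    intro c h0
    have h1 := congrFun h0 (⟨0, hd⟩ : Fin d)
    simp only [v, pow_zero, one_smul, Pi.zero_apply] at h1
    exact hy c c.2 h1
  have hinj : Function.Injective (fun c : S => (c : K)) := Subtype.val_injective
  have hLI : LinearIndependent K v :=
    Module.End.eigenvectors_linearIndependent' Φ (fun c : S => (c : K)) hinj v
      fun c => ⟨hmem c, hne c⟩
  -- the same family in `Fin d → W`
  let w : S → (Fin d → W) := fun c k => ⟨(c : K) ^ (k : ℕ) • y c, W.smul_mem _ (hW _ c.2)⟩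
  let E : (Fin d → W) →ₗ[K] (Fin d → V) := LinearMap.pi fun k => W.subtype ∘ₗ LinearMap.proj k
  have hLI2 : LinearIndependent K w := by
    refine LinearIndependent.of_comp E ?_
    have : (⇑E ∘ w) = v := by
      funext ji k
      rfl
    rw [this]
    exact hLI
  have hcard := hLI2.fintype_card_le_finrank
  rw [Fintype.card_coe, Module.finrank_pi_fintype, Finset.sum_const, Finset.card_univ,
    Fintype.card_fin, smul_eq_mul] at hcard
  exact hcard

end vec

section poly

variable {K : Type*} [Field K]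

/-- Polynomials `y` in `U` with `∑_{k < d} c ^ k Λ_k y + c ^ d M y = 0`, for many `c`. -/
theorem count_poly {d : ℕ} (hd : 1 ≤ d) (Λ : Fin d → K[X] →ₗ[K] K[X]) {M : K[X]} (hM : M ≠ 0)
    (U : Submodule K K[X]) [FiniteDimensional K U] (S : Finset K) (y : K → K[X])
    (hU : ∀ c ∈ S, y c ∈ U) (hy : ∀ c ∈ S, y c ≠ 0)
    (hsol : ∀ c ∈ S, ∑ k : Fin d, C (c ^ (k : ℕ)) * Λ k (y c) + C (c ^ d) * (M * y c) = 0) :
    S.card ≤ d * finrank K U := by
  classical
  let F := FractionRing K[X]
  let ι : K[X] →ₗ[K] F := (Algebra.linearMap K[X] F).restrictScalars K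
  have hι : ∀ f, ι f = algebraMap K[X] F f := fun f => rfl
  have hιinj : Function.Injective ι := IsFractionRing.injective K[X] F
  obtain ⟨π, hπ⟩ := ι.exists_leftInverse_of_injective (LinearMap.ker_eq_bot.2 hιinj)
  have hπ' : ∀ f, π (ι f) = f := fun f => LinearMap.congr_fun hπ f
  have hM0 : algebraMap K[X] F M ≠ 0 := by
    rw [Ne, IsFractionRing.to_map_eq_zero_iff]
    exact hM
  let T : Fin d → End K F := fun k =>
    -((LinearMap.mulLeft K ((algebraMap K[X] F M)⁻¹)) ∘ₗ ι ∘ₗ (Λ k) ∘ₗ π)
  have hT : ∀ k f, T k (ι f) = -((algebraMap K[X] F M)⁻¹ * ι (Λ k f)) := by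
    intro k f
    show -((algebraMap K[X] F M)⁻¹ * ι (Λ k (π (ι f)))) = _
    rw [hπ']
  have hfr : finrank K (U.map ι) ≤ finrank K U := Submodule.finrank_map_le ι U
  refine (count_vec hd T (U.map ι) S (fun c => ι (y c)) (fun c hc => Submodule.mem_map_of_mem (hU c hc))
    (fun c hc h0 => hy c hc (hιinj (by rw [h0, map_zero]))) ?_).trans (Nat.mul_le_mul_left d hfr)
  intro c hc
  have h1 := congrArg ι (hsol c hc)
  rw [map_add, map_sum, map_zero] at h1
  have h2 : ∀ (a : K) (f : K[X]), ι (C a * f) = a • ι f := by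
    intro a f
    rw [← smul_eq_C_mul, map_smul]
  simp only [h2] at h1
  have h3 : ι (M * y c) = algebraMap K[X] F M * ι (y c) := by
    rw [hι, hι, map_mul]
  rw [h3] at h1
  show c ^ d • ι (y c) = ∑ k : Fin d, c ^ (k : ℕ) • T k (ι (y c))
  have h4 : ∑ k : Fin d, c ^ (k : ℕ) • T k (ι (y c)) =
      -((algebraMap K[X] F M)⁻¹ * ∑ k : Fin d, c ^ (k : ℕ) • ι (Λ k (y c))) := by
    rw [mul_sum, ← sum_neg_distrib]
    refine sum_congr rfl fun k _ => ?_
    rw [hT, smul_neg, mul_smul_comm]
  rw [h4]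
  have h5 : ∑ k : Fin d, c ^ (k : ℕ) • ι (Λ k (y c)) =
      -(c ^ d • (algebraMap K[X] F M * ι (y c))) := by
    rw [eq_neg_iff_add_eq_zero]
    exact h1
  rw [h5, mul_neg, neg_neg, mul_smul_comm, ← mul_assoc, inv_mul_cancel₀ hM0, one_mul]

/-- the multiples of `P` by polynomials of degree less than `k` -/
noncomputable def mulSpace (P : K[X]) (k : ℕ) : Submodule K K[X] :=
  (degreeLT K k).map (LinearMap.mulLeft K P)

instance (P : K[X]) (k : ℕ) : FiniteDimensional K (mulSpace P k) := by
  unfold mulSpace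
  have : FiniteDimensional K (degreeLT K k) :=
    LinearEquiv.finiteDimensional (degreeLTEquiv K k).symm
  exact inferInstance

lemma finrank_mulSpace (P : K[X]) (k : ℕ) : finrank K (mulSpace P k) ≤ k := by
  have h1 : FiniteDimensional K (degreeLT K k) :=
    LinearEquiv.finiteDimensional (degreeLTEquiv K k).symm
  have h2 : finrank K (degreeLT K k) = k := by
    rw [LinearEquiv.finrank_eq (degreeLTEquiv K k), finrank_fin_fun]
  unfold mulSpace
  exact (Submodule.finrank_map_le _ _).trans h2.le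

lemma mem_mulSpace {P y : K[X]} {k : ℕ} (hy : y ≠ 0) (hdvd : P ∣ y)
    (hdeg : (y.natDegree : ℤ) - P.natDegree < k) : y ∈ mulSpace P k := by
  obtain ⟨z, rfl⟩ := hdvd
  have hP := left_ne_zero_of_mul hy
  have hz := right_ne_zero_of_mul hy
  refine ⟨z, ?_, rfl⟩
  rw [SetLike.mem_coe, mem_degreeLT, degree_eq_natDegree hz]
  rw [natDegree_mul hP hz] at hdeg
  push_cast at hdeg
  have : z.natDegree < k := by omega
  exact_mod_cast this

end poly

end Pool.Agent.Helper9.PC
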