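import Pool.Graph.R_seed8.W432.WB.Descent
import Pool.Agent.Helper9.PC.Lin

set_option autoImplicit false

/-!
Families of operators which differ in the coefficient of order zero: the number of members with a
solution in a given space of polynomials.
-/

open Polynomial Finset Module

namespace Pool.Agent.Helper9.PC

open Pool.Agent.W432.PC (T Tc T_ne)
open Pool.Agent.W432.WB (Sol comp)

section

variable {k : Type*} [Field k] {m n : ℕ}

/-- the operators `T ^ t ∂ ^ t`, as iterates -/
noncomputable def Ph (α : Fin m → k) : ℕ → k[X] →ₗ[k] k[X]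
  | 0 => LinearMap.id
  | t + 1 => (LinearMap.mulLeft k (T α)) ∘ₗ derivative ∘ₗ Ph α t -
      (LinearMap.mulLeft k (((t : ℕ) : k[X]) * derivative (T α))) ∘ₗ Ph α t

lemma Ph_zero (α : Fin m → k) (y : k[X]) : Ph α 0 y = y := rfl

lemma Ph_succ (α : Fin m → k) (t : ℕ) (y : k[X]) : Ph α (t + 1) y =
    T α * derivative (Ph α t y) - ((t : ℕ) : k[X]) * derivative (T α) * Ph α t y := rfl

lemma comp_mulVec {α : Fin m → k} {Q : Fin (n + 1) → k[X]} (W : Fin n → k[X]) (i : Fin n) :
    (comp α Q).mulVec W i = ((i : ℕ) : k[X]) * derivative (T α) * W i +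
      (∑ l : Fin n, if (l : ℕ) = i + 1 then W l else 0) -
      (if (i : ℕ) + 1 = n then ∑ l : Fin n, Q l.castSucc * W l else 0) := by
  have h3 : ∀ l : Fin n, comp α Q i l * W l =
      (if i = l then ((i : ℕ) : k[X]) * derivative (T α) * W l else 0) +
      (if (l : ℕ) = i + 1 then W l else 0) -
      (if (i : ℕ) + 1 = n then Q l.castSucc * W l else 0) := by
    intro l
    simp only [Pool.Agent.W432.WB.comp, Matrix.of_apply]
    split_ifs <;> ring
  simp only [Matrix.mulVec, dotProduct, h3, Finset.sum_add_distrib, Finset.sum_sub_distrib,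
    Finset.sum_ite_eq, Finset.mem_univ, if_true]
  congr 1
  split_ifs with h4
  · rfl
  · simp

lemma sol_chain (hn : 0 < n) {α : Fin m → k} {Q : Fin (n + 1) → k[X]} {W : Fin n → k[X]}
    (hW : Sol α (comp α Q) W) : ∀ t : ℕ, ∀ h : t < n, W ⟨t, h⟩ = Ph α t (W ⟨0, hn⟩) := by
  intro t
  induction t with
  | zero => intro _; rfl
  | succ t ih =>
    intro h
    have ht : t < n := by omega
    have h1 := hW ⟨t, ht⟩
    rw [comp_mulVec] at h1
    have h2 : ¬ (t + 1 = n) := by omega
    simp only [h2, if_false, sub_zero] at h1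
    have h3 : (∑ l : Fin n, if (l : ℕ) = t + 1 then W l else 0) = W ⟨t + 1, h⟩ := by
      rw [Finset.sum_eq_single ⟨t + 1, h⟩]
      · simp
      · intro l _ hl
        rw [if_neg]
        intro h'
        exact hl (Fin.ext h')
      · intro h'; exact absurd (Finset.mem_univ _) h'
    rw [h3] at h1
    rw [Ph_succ, ← ih ht]
    linear_combination -h1

lemma sol_last (hn : 0 < n) {α : Fin m → k} {Q : Fin (n + 1) → k[X]} {W : Fin n → k[X]}
    (hW : Sol α (comp α Q) W) :
    Ph α n (W ⟨0, hn⟩) + ∑ l : Fin n, Q l.castSucc * Ph α l (W ⟨0, hn⟩) = 0 := by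
  have hlast : n - 1 < n := by omega
  have h1 := hW ⟨n - 1, hlast⟩
  rw [comp_mulVec] at h1
  have h2 : n - 1 + 1 = n := by omega
  simp only [h2, if_true] at h1
  have h3 : (∑ l : Fin n, if (l : ℕ) = n then W l else 0) = 0 := by
    refine Finset.sum_eq_zero fun l _ => ?_
    rw [if_neg]
    have := l.isLt
    omega
  rw [h3, sol_chain hn hW _ hlast] at h1
  have h4 : ∑ l : Fin n, Q l.castSucc * W l =
      ∑ l : Fin n, Q l.castSucc * Ph α l (W ⟨0, hn⟩) := by
    refine Finset.sum_congr rfl fun l _ => ?_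
    rw [show W l = W ⟨(l : ℕ), l.isLt⟩ from rfl, sol_chain hn hW l l.isLt]
  rw [h4] at h1
  have h5 : ∀ y, Ph α n y = T α * derivative (Ph α (n - 1) y) -
      ((n - 1 : ℕ) : k[X]) * derivative (T α) * Ph α (n - 1) y := by
    intro y
    have := Ph_succ α (n - 1) y
    rwa [h2] at this
  rw [h5]
  linear_combination h1

/-- The coefficients of the member `c` of a family. -/
noncomputable def member {d : ℕ} (α : Fin m → k) (Q : Fin (n + 1) → k[X]) (R : Fin d → k[X])
    (c : k) : Fin (n + 1) → k[X] :=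
  fun i => Q i + if i = 0 then ∑ t : Fin d, C (c ^ ((t : ℕ) + 1)) * (T α * R t) else 0

/-- At most `d finrank U` members of a family have a solution in `U`. -/
theorem count_members (hn : 0 < n) {d : ℕ} {α : Fin m → k} {Q : Fin (n + 1) → k[X]}
    {R : Fin (d + 1) → k[X]} (hR : R (Fin.last d) ≠ 0)
    (U : Submodule k k[X]) [FiniteDimensional k U] (S : Finset k)
    (h : ∀ c ∈ S, ∃ W : Fin n → k[X], Sol α (comp α (member α Q R c)) W ∧ W ⟨0, hn⟩ ≠ 0 ∧
      W ⟨0, hn⟩ ∈ U) :
    S.card ≤ (d + 1) * finrank k U := by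
  classical
  have h' : ∀ c : k, ∃ W : Fin n → k[X], c ∈ S → Sol α (comp α (member α Q R c)) W ∧
      W ⟨0, hn⟩ ≠ 0 ∧ W ⟨0, hn⟩ ∈ U := by
    intro c
    by_cases hc : c ∈ S
    · obtain ⟨W, hW⟩ := h c hc
      exact ⟨W, fun _ => hW⟩
    · exact ⟨0, fun hc' => absurd hc' hc⟩
  choose W hW using h'
  let Λ0 : k[X] →ₗ[k] k[X] := Ph α n + ∑ l : Fin n, (LinearMap.mulLeft k (Q l.castSucc)) ∘ₗ Ph α l
  have hΛ0 : ∀ y, Λ0 y = Ph α n y + ∑ l : Fin n, Q l.castSucc * Ph α l y := by
    intro y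
    simp only [Λ0, LinearMap.add_apply, LinearMap.sum_apply, LinearMap.comp_apply,
      LinearMap.mulLeft_apply]
  let Λ : Fin (d + 1) → k[X] →ₗ[k] k[X] :=
    Fin.cases Λ0 fun t => LinearMap.mulLeft k (T α * R t.castSucc)
  refine count_poly (Nat.succ_le_succ (Nat.zero_le d)) Λ (M := T α * R (Fin.last d))
    (mul_ne_zero T_ne hR) U S (fun c => W c ⟨0, hn⟩) (fun c hc => (hW c hc).2.2)
    (fun c hc => (hW c hc).2.1) ?_
  intro c hc
  have h1 := sol_last hn (hW c hc).1
  set y := W c ⟨0, hn⟩ with hy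
  rw [Fin.sum_univ_succ]
  have h2 : Λ 0 = Λ0 := rfl
  have h3 : ∀ t : Fin d, Λ t.succ = LinearMap.mulLeft k (T α * R t.castSucc) := fun t => rfl
  simp only [h2, h3, hΛ0, LinearMap.mulLeft_apply, Fin.val_zero, pow_zero, map_one, one_mul,
    Fin.val_succ]
  have h4 : ∑ l : Fin n, member α Q R c l.castSucc * Ph α l y =
      ∑ l : Fin n, Q l.castSucc * Ph α l y +
        (∑ t : Fin (d + 1), C (c ^ ((t : ℕ) + 1)) * (T α * R t)) * y := by
    simp only [member, add_mul, sum_add_distrib]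
    congr 1
    rw [Finset.sum_eq_single (⟨0, hn⟩ : Fin n)]
    · rw [if_pos (by ext; simp)]
      rfl
    · intro l _ hl
      rw [if_neg, zero_mul]
      intro h0
      apply hl
      ext
      have := congrArg Fin.val h0
      simpa using this
    · intro h0; exact absurd (Finset.mem_univ _) h0
  rw [h4, Fin.sum_univ_castSucc, add_mul, sum_mul] at h1
  simp only [Fin.val_castSucc, Fin.val_last] at h1
  have h5 : ∑ t : Fin d, C (c ^ ((t : ℕ) + 1)) * (T α * R t.castSucc * y) =
      ∑ t : Fin d, C (c ^ ((t : ℕ) + 1)) * (T α * R t.castSucc) * y :=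
    sum_congr rfl fun t _ => by ring
  rw [h5]
  linear_combination h1

end

end Pool.Agent.Helper9.PC
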