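import Pool.Agent.Helper9.PC.Heun

set_option autoImplicit false

/-!
The parameters for which all large primes are good.
-/

open Polynomial Finset

namespace Pool.Agent.Helper9.PC

open Pool.Agent.Helper923.HMertens (PP)
open Pool.Agent.W432.WB (FullMod)

theorem all_primes {A : ℕ → ℚ → Prop} {η θ κ C : ℝ} (hη : 0 ≤ η) (hθ : 0 ≤ θ) (hκ : 0 < κ)
    (h : ∀ X : ℝ, 2 ≤ X → (Set.ncard {x : ℚ | |(x.num : ℝ)| ≤ X ∧ (x.den : ℝ) ≤ X ^ η ∧
      badS A x (X ^ θ) ≤ κ * Real.log X} : ℝ) ≤ C * X ^ θ) (P₁ : ℕ) :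
    ∃ C' : ℝ, ∀ X : ℝ, 2 ≤ X → (Set.ncard {x : ℚ | |(x.num : ℝ)| ≤ X ∧ (x.den : ℝ) ≤ X ^ η ∧
      ∀ p : ℕ, P₁ < p → p.Prime → ¬ p ∣ x.den → A p x} : ℝ) ≤ C' * X ^ θ := by
  classical
  obtain ⟨T, hT⟩ : ∃ T : ℕ, T = max (P₁ + 1) ⌈2 * η / κ⌉₊ := ⟨_, rfl⟩
  have hT1 : P₁ + 1 ≤ T := by rw [hT]; exact le_max_left _ _
  have hT0 : (0 : ℝ) < T := by exact_mod_cast (by omega : 0 < T)
  have hT2 : η ≤ κ / 2 * T := by
    have h1 : ⌈2 * η / κ⌉₊ ≤ T := by rw [hT]; exact le_max_right _ _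
    have h2 : 2 * η / κ ≤ T := (Nat.le_ceil _).trans (by exact_mod_cast h1)
    rw [div_le_iff₀ hκ] at h2
    linarith
  have hnn : ∀ p : ℕ, 0 ≤ Real.log p / p := fun p =>
    div_nonneg (Real.log_natCast_nonneg p) (Nat.cast_nonneg p)
  obtain ⟨CT, hCT⟩ : ∃ CT : ℝ, CT = ∑ p ∈ Icc 1 T, Real.log p / p := ⟨_, rfl⟩
  have hCT0 : 0 ≤ CT := by rw [hCT]; exact sum_nonneg fun p _ => hnn p
  obtain ⟨L₀, hL₀⟩ : ∃ L₀ : ℝ, L₀ = 2 * CT / κ := ⟨_, rfl⟩
  have hL₀0 : 0 ≤ L₀ := by rw [hL₀]; positivity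
  refine ⟨max C ((2 * Real.exp L₀ + 1) * (Real.exp L₀) ^ η), fun X hX => ?_⟩
  have hX0 : 0 < X := by linarith
  have hXθ : 1 ≤ X ^ θ := Real.one_le_rpow (by linarith) hθ
  have hXη : 1 ≤ X ^ η := Real.one_le_rpow (by linarith) hη
  rcases lt_or_ge (Real.log X) L₀ with hlt | hge
  · obtain ⟨S, -, hS2, hS3⟩ := fin_rats
      (fun x => ∀ p : ℕ, P₁ < p → p.Prime → ¬ p ∣ x.den → A p x) hX0.le
      (by linarith : (0 : ℝ) ≤ X ^ η)
    rw [hS2]
    have h1 : X < Real.exp L₀ := (Real.log_lt_iff_lt_exp hX0).1 hlt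
    have h2 : X ^ η ≤ (Real.exp L₀) ^ η := Real.rpow_le_rpow hX0.le h1.le hη
    have h0 : 0 ≤ (2 * Real.exp L₀ + 1) * (Real.exp L₀) ^ η := by positivity
    calc (S.card : ℝ) ≤ (2 * X + 1) * X ^ η := hS3
      _ ≤ (2 * Real.exp L₀ + 1) * (Real.exp L₀) ^ η :=
          mul_le_mul (by linarith) h2 (by linarith) (by positivity)
      _ = (2 * Real.exp L₀ + 1) * (Real.exp L₀) ^ η * 1 := (mul_one _).symm
      _ ≤ (2 * Real.exp L₀ + 1) * (Real.exp L₀) ^ η * X ^ θ :=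
          mul_le_mul_of_nonneg_left hXθ h0
      _ ≤ max C ((2 * Real.exp L₀ + 1) * (Real.exp L₀) ^ η) * X ^ θ :=
          mul_le_mul_of_nonneg_right (le_max_right _ _) (by linarith)
  · obtain ⟨S, hS1, hS2, -⟩ := fin_rats
      (fun x => ∀ p : ℕ, P₁ < p → p.Prime → ¬ p ∣ x.den → A p x) hX0.le
      (by linarith : (0 : ℝ) ≤ X ^ η)
    obtain ⟨S', hS1', hS2', -⟩ := fin_rats
      (fun x => badS A x (X ^ θ) ≤ κ * Real.log X) hX0.le (by linarith : (0 : ℝ) ≤ X ^ η)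
    have hmain := h X hX
    rw [hS2'] at hmain
    rw [hS2]
    have hsub : S ⊆ S' := by
      intro x hx
      obtain ⟨hx1, hx2, hx3⟩ := (hS1 x).1 hx
      refine (hS1' x).2 ⟨hx1, hx2, ?_⟩
      obtain ⟨P, hP⟩ : ∃ P : Finset ℕ, P = (Icc 1 ⌊X ^ θ⌋₊).filter
          (fun p => p.Prime ∧ T < p ∧ p ∣ x.den) := ⟨_, rfl⟩
      have e1 : ((Icc 1 ⌊X ^ θ⌋₊).filter fun p => p.Prime ∧ ¬ A p x) ⊆ Icc 1 T ∪ P := by
        intro p hp
        rw [mem_filter, mem_Icc] at hp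
        rw [mem_union, hP, mem_filter, mem_Icc, mem_Icc]
        rcases le_or_gt p T with hpT | hpT
        · exact Or.inl ⟨hp.1.1, hpT⟩
        · refine Or.inr ⟨hp.1, hp.2.1, hpT, ?_⟩
          by_contra hdvd
          exact hp.2.2 (hx3 p (by omega) hp.2.1 hdvd)
      have e2 : badS A x (X ^ θ) ≤ CT + ∑ p ∈ P, Real.log p / p := by
        unfold badS
        refine (sum_le_sum_of_subset_of_nonneg e1 fun p _ _ => hnn p).trans ?_
        have e3 := sum_union_inter (s₁ := Icc 1 T) (s₂ := P) (f := fun p : ℕ => Real.log p / p)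
        have e4 : 0 ≤ ∑ p ∈ Icc 1 T ∩ P, Real.log p / p := sum_nonneg fun p _ => hnn p
        rw [hCT]
        linarith
      have e5 : ∑ p ∈ P, Real.log p / p ≤ (∑ p ∈ P, Real.log p) / T := by
        rw [sum_div]
        refine sum_le_sum fun p hp => ?_
        rw [hP, mem_filter] at hp
        refine div_le_div_of_nonneg_left (Real.log_natCast_nonneg p) hT0 ?_
        exact_mod_cast hp.2.2.1.le
      have e6 : ∑ p ∈ P, Real.log p ≤ Real.log x.den := by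
        have h1 := Pool.Agent.TH924.PC.sum_log_dvd (P := P) (fun p hp => by
          rw [hP, mem_filter] at hp
          exact hp.2.1) (m := x.den) x.den_nz
        have h2 : P.filter (fun p => p ∣ x.den) = P := by
          rw [filter_eq_self]
          intro p hp
          rw [hP, mem_filter] at hp
          exact hp.2.2.2
        rw [h2] at h1
        exact h1
      have e7 : Real.log x.den ≤ η * Real.log X := by
        have : Real.log (X ^ η) = η * Real.log X := by rw [Real.log_rpow hX0]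
        rw [← this]
        exact Real.log_le_log (by exact_mod_cast x.den_pos) hx2
      have hlog0 : 0 ≤ Real.log X := le_trans hL₀0 hge
      have e8 : (∑ p ∈ P, Real.log p) / T ≤ κ / 2 * Real.log X := by
        rw [div_le_iff₀ hT0]
        have h1 := mul_le_mul_of_nonneg_right hT2 hlog0
        linarith
      have e9 : CT ≤ κ / 2 * Real.log X := by
        rw [hL₀, div_le_iff₀ hκ] at hge
        linarith
      linarith
    have hcard : (S.card : ℝ) ≤ S'.card := by exact_mod_cast card_le_card hsub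
    exact hcard.trans (hmain.trans (mul_le_mul_of_nonneg_right (le_max_left _ _) (by linarith)))

lemma theta_pos {N : ℕ} [NeZero N] {δ : (ZMod N)ˣ → ℝ} (hδ : ∀ v, 0 < δ v) {η θ : ℝ}
    (hη : 0 ≤ η) {d : ℕ}
    (hx : (1 + η) * ((d : ℝ) + 1) * N.totient < θ * ∑ v : (ZMod N)ˣ, 1 / δ v) : 0 < θ := by
  have h1 : 0 < ∑ v : (ZMod N)ˣ, 1 / δ v :=
    sum_pos (fun v _ => one_div_pos.2 (hδ v)) ⟨1, mem_univ _⟩
  by_contra h
  push Not at h
  have h2 := mul_nonpos_of_nonpos_of_nonneg h h1.le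
  have h3 : 0 ≤ (1 + η) * ((d : ℝ) + 1) * N.totient := by positivity
  linarith

/-- At most `C X ^ θ` rational numbers `q` with numerator at most `X` and denominator at most
`X ^ η` have few bad primes, in the following two senses: the sum of `log p / p` over the primes
`p ≤ X ^ θ` for which the reduction modulo `p` of `L_q` does not have a full basis of rational
solutions is at most `κ log X`, for some `κ > 0` which does not depend on `X`; or all primes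
`p > P₁` which do not divide the denominator of `q` have a full basis. -/
def Sparse {n d : ℕ} (b : Fin (n + 1) → ℤ[X]) (r : Fin (d + 1) → ℤ[X]) (η θ : ℝ) : Prop :=
  (∃ κ : ℝ, 0 < κ ∧ ∃ C : ℝ, ∀ X : ℝ, 2 ≤ X →
    (Set.ncard {q : ℚ | |(q.num : ℝ)| ≤ X ∧ (q.den : ℝ) ≤ X ^ η ∧
      badSum (fam b r q) (X ^ θ) ≤ κ * Real.log X} : ℝ) ≤ C * X ^ θ) ∧
  ∀ P₁ : ℕ, ∃ C : ℝ, ∀ X : ℝ, 2 ≤ X →
    (Set.ncard {q : ℚ | |(q.num : ℝ)| ≤ X ∧ (q.den : ℝ) ≤ X ^ η ∧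
      ∀ p : ℕ, P₁ < p → ¬ p ∣ q.den → ∀ _hp : Fact p.Prime, FullMod (fam b r q) p} : ℝ) ≤
        C * X ^ θ

theorem sparse_of {n d : ℕ} {b : Fin (n + 1) → ℤ[X]} {r : Fin (d + 1) → ℤ[X]} {η θ : ℝ}
    (hη : 0 ≤ η) (hθ : 0 ≤ θ)
    (h : ∃ κ : ℝ, 0 < κ ∧ ∃ C : ℝ, ∀ X : ℝ, 2 ≤ X →
      (Set.ncard {q : ℚ | |(q.num : ℝ)| ≤ X ∧ (q.den : ℝ) ≤ X ^ η ∧
        badSum (fam b r q) (X ^ θ) ≤ κ * Real.log X} : ℝ) ≤ C * X ^ θ) :
    Sparse b r η θ := by
  classical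
  refine ⟨h, fun P₁ => ?_⟩
  obtain ⟨κ, hκ, C, hC⟩ := h
  obtain ⟨A, hA⟩ : ∃ A : ℕ → ℚ → Prop, ∀ p x, A p x ↔ ∃ _ : Fact p.Prime, FullMod (fam b r x) p :=
    ⟨fun p x => ∃ _ : Fact p.Prime, FullMod (fam b r x) p, fun p x => Iff.rfl⟩
  have e : ∀ (x : ℚ) (Y : ℝ), badSum (fam b r x) Y = badS A x Y := by
    intro x Y
    unfold badS badSum
    refine sum_congr ?_ fun _ _ => rfl
    ext p
    simp only [mem_filter, hA]
  simp only [e] at hC
  obtain ⟨C', hC'⟩ := all_primes hη hθ hκ hC P₁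
  refine ⟨C', fun X hX => ?_⟩
  have e2 : {q : ℚ | |(q.num : ℝ)| ≤ X ∧ (q.den : ℝ) ≤ X ^ η ∧
      ∀ p : ℕ, P₁ < p → ¬ p ∣ q.den → ∀ _hp : Fact p.Prime, FullMod (fam b r q) p} =
      {x : ℚ | |(x.num : ℝ)| ≤ X ∧ (x.den : ℝ) ≤ X ^ η ∧
      ∀ p : ℕ, P₁ < p → p.Prime → ¬ p ∣ x.den → A p x} := by
    ext x
    simp only [Set.mem_setOf_eq, hA]
    refine and_congr_right fun _ => and_congr_right fun _ => ?_
    constructor
    · intro h p h1 h2 h3
      exact ⟨⟨h2⟩, h p h1 h3 ⟨h2⟩⟩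
    · intro h p h1 h3 hp
      obtain ⟨_, h4⟩ := h p h1 hp.out h3
      exact h4
  rw [e2]
  exact hC' X hX

end Pool.Agent.Helper9.PC
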