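import Pool.Agent.Helper9.PC.Point

set_option autoImplicit false

/-!
The number of the members of a family of operators, modulo a prime `p`, which have a full basis of
rational solutions: families over a field of characteristic zero.
-/

open Polynomial Finset Module

namespace Pool.Agent.Helper9.PC

open Pool.Agent.W432.PC (T T_ne T_map wt lexLE)
open Pool.Agent.W432.WB (FullMod IsFuchs HasExps exists_ring exists_lift fuchs indLoc_map indInf_map
  indLoc indInf)

universe u

theorem count_field {F : Type u} [Field F] [CharZero F] {m n d : ℕ} (hm : 0 < m) (hn : 0 < n)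
    (b : Fin (n + 1) → ℤ[X]) (hb : b (Fin.last n) ≠ 0) (α : Fin m → F) (Q : Fin (n + 1) → F[X])
    (hF : IsFuchs b α Q) (lam : Fin m → Fin n → ℚ) (phi : Fin n → ℚ) (hE : HasExps α Q lam phi)
    (r : Fin (d + 1) → ℤ[X]) (hr : r (Fin.last d) ≠ 0) (Rr : Fin (d + 1) → F[X])
    (hRr : ∀ t, T α ^ (n - 1) * (r t).map (Int.castRingHom F) =
      (b (Fin.last n)).map (Int.castRingHom F) * Rr t)
    (hRdeg : ∀ t, (Rr t).natDegree + 2 ≤ (n - 1) * (m - 1))
    (N : ℕ) (hN : 0 < N) (hNlam : ∀ j l, ∃ z : ℤ, (N : ℚ) * lam j l = z)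
    (hNphi : ∀ l, ∃ z : ℤ, (N : ℚ) * phi l = z)
    (a : ℤ) {δ : ℝ} (hδ : 0 ≤ δ) (i : Fin m → Fin n) (s : Fin n) (q : ℤ)
    (hq : CountCond a lam (fun l => phi l + (((n - 1) * (m - 1) : ℕ) : ℚ)) i s q)
    (hgap : ((q + wt a (phi s + (((n - 1) * (m - 1) : ℕ) : ℚ)) - ∑ j, wt a (lam j (i j)) : ℚ) : ℝ) ≤ δ) :
    ∃ (P₀ : ℕ) (M : ℝ), 0 ≤ M ∧ ∀ p : ℕ, P₀ < p → (N : ℤ) ∣ a * p + 1 → ∀ _hp : Fact p.Prime,
      ∀ S : Finset (ZMod p), (∀ t ∈ S, ∃ x : ℚ, ¬ p ∣ x.den ∧ res p x = t ∧ FullMod (fam b r x) p) →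
        (S.card : ℝ) ≤ ((d : ℝ) + 1) * (δ * p + M) := by
  classical
  choose mu hmu using hNlam
  choose mu' hmu' using hNphi
  let S : Finset F := (Finset.univ.image α) ∪
    (Finset.univ.image fun x : Fin m × Fin m => (α x.1 - α x.2)⁻¹) ∪
    ((Finset.univ.biUnion fun k : Fin (n + 1) => (Q k).support.image (Q k).coeff) ∪
    (Finset.univ.biUnion fun t : Fin (d + 1) => (Rr t).support.image (Rr t).coeff))
  obtain ⟨R, _, _, _, _, ι, hι, hS⟩ := exists_ring S
  have hα' : ∀ j, ∃ x, ι x = α j := fun j => hS _ (by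
    simp only [S, Finset.mem_union, Finset.mem_image, Finset.mem_univ, true_and]
    exact Or.inl (Or.inl ⟨j, rfl⟩))
  choose α' hα' using hα'
  have hinv : ∀ i j, ∃ x, ι x = (α i - α j)⁻¹ := fun i j => hS _ (by
    simp only [S, Finset.mem_union, Finset.mem_image, Finset.mem_univ, true_and]
    exact Or.inl (Or.inr ⟨(i, j), rfl⟩))
  have hQl : ∀ k, ∃ P : R[X], P.map ι = Q k := fun k => exists_lift ι (Q k) fun i hi => hS _ (by
    simp only [S, Finset.mem_union, Finset.mem_biUnion, Finset.mem_univ, true_and]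
    exact Or.inr (Or.inl ⟨k, Finset.mem_image.mpr ⟨i, hi, rfl⟩⟩))
  choose Q' hQ' using hQl
  have hRl : ∀ t, ∃ P : R[X], P.map ι = Rr t := fun t => exists_lift ι (Rr t) fun i hi => hS _ (by
    simp only [S, Finset.mem_union, Finset.mem_biUnion, Finset.mem_univ, true_and]
    exact Or.inr (Or.inr ⟨t, Finset.mem_image.mpr ⟨i, hi, rfl⟩⟩))
  choose R' hR' using hRl
  have hαe : (fun j => ι (α' j)) = α := funext hα'
  have hQe : (fun k => (Q' k).map ι) = Q := funext hQ'
  have hmapinj : Function.Injective (Polynomial.map ι) := map_injective ι hι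
  have hcast : ι.comp (Int.castRingHom R) = Int.castRingHom F := RingHom.ext_int _ _
  have hunit : ∀ i j, i ≠ j → IsUnit (α' i - α' j) := by
    intro i j hij
    obtain ⟨x, hx⟩ := hinv i j
    refine IsUnit.of_mul_eq_one x ?_
    apply hι
    rw [map_mul, map_sub, hα', hα', hx, map_one]
    exact mul_inv_cancel₀ (sub_ne_zero.mpr fun h => hij (hF.inj h))
  have hQlast : Q' (Fin.last n) = 1 := by
    apply hmapinj
    rw [hQ', hF.last, Polynomial.map_one]
  have hdeg : ∀ k, (Q' k).natDegree ≤ (n - k) * (m - 1) := by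
    intro k
    rw [← natDegree_map_eq_of_injective hι, hQ']
    exact hF.deg k
  have hRdeg' : ∀ t, (R' t).natDegree + 2 ≤ (n - 1) * (m - 1) := by
    intro t
    rw [← natDegree_map_eq_of_injective hι, hR']
    exact hRdeg t
  have hbQ : ∀ k : Fin (n + 1), T α' ^ (n - (k : ℕ)) * (b k).map (Int.castRingHom R) =
      (b (Fin.last n)).map (Int.castRingHom R) * Q' k := by
    intro k
    apply hmapinj
    rw [Polynomial.map_mul, Polynomial.map_mul, Polynomial.map_pow, T_map, Polynomial.map_map,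
      Polynomial.map_map, hcast, hQ', hαe]
    exact hF.eq k
  have hRr' : ∀ t, T α' ^ (n - 1) * (r t).map (Int.castRingHom R) =
      (b (Fin.last n)).map (Int.castRingHom R) * R' t := by
    intro t
    apply hmapinj
    rw [Polynomial.map_mul, Polynomial.map_mul, Polynomial.map_pow, T_map, Polynomial.map_map,
      Polynomial.map_map, hcast, hR', hαe]
    exact hRr t
  have htr := fuchs hn hm hF.inj hF.last hF.deg hE.1 hE.2
  have hfac : ∀ (x : Fin n → ℚ) (z : Fin n → ℤ), (∀ l, (N : ℚ) * x l = z l) →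
      C ((N : F) ^ n) * ∏ l, (X - C ((x l : ℚ) : F)) =
        ∏ l, (C (N : F) * X - C ((z l : ℤ) : F)) := by
    intro x z hxz
    have h1 : C ((N : F) ^ n) = ∏ _l : Fin n, (C (N : F) : F[X]) := by
      rw [Finset.prod_const, Finset.card_univ, Fintype.card_fin, C_pow]
    rw [h1, ← Finset.prod_mul_distrib]
    refine Finset.prod_congr rfl fun l _ => ?_
    have h2 : (N : F) * ((x l : ℚ) : F) = ((z l : ℤ) : F) := by
      exact_mod_cast congrArg (fun x : ℚ => (x : F)) (hxz l)
    rw [mul_sub, ← C_mul, h2]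
  have hlinmap : ∀ z : Fin n → ℤ, (∏ l, (C (N : R) * X - C ((z l : ℤ) : R))).map ι =
      ∏ l, (C (N : F) * X - C ((z l : ℤ) : F)) := by
    intro z
    rw [Polynomial.map_prod]
    exact Finset.prod_congr rfl fun l _ => by simp
  have hloc : ∀ j, C ((N : R) ^ n) * indLoc α' Q' j = C ((derivative (T α')).eval (α' j) ^ n) *
      ∏ l, (C (N : R) * X - C ((mu j l : ℤ) : R)) := by
    intro j
    apply hmapinj
    have h1 : ι ((derivative (T α')).eval (α' j)) = (derivative (T α)).eval (α j) := by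
      rw [← eval_map_apply, ← derivative_map, T_map, hαe, hα']
    rw [Polynomial.map_mul, Polynomial.map_mul, indLoc_map, hαe, hQe, hlinmap, map_C, map_C,
      map_pow ι, map_pow ι, map_natCast, h1, hE.1 j, ← hfac _ _ (hmu j)]
    ring
  have hinf : C ((N : R) ^ n) * indInf m Q' = ∏ l, (C (N : R) * X - C ((mu' l : ℤ) : R)) := by
    apply hmapinj
    rw [Polynomial.map_mul, indInf_map, hQe, hlinmap, map_C, map_pow ι, map_natCast, hE.2,
      hfac _ _ hmu']
  exact count_ring hm hn b hb α' hunit Q' hQlast hdeg hbQ r hr R' hRr' hRdeg' lam phi htr N hN mu mu'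
    hmu hmu' hloc hinf a hδ i s q hq hgap

end Pool.Agent.Helper9.PC
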