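import Pool.Agent.Helper9.PC.Sieve
import Pool.Agent.Helper9.PC.AP

set_option autoImplicit false

/-!
The larger sieve for properties with a small number of classes modulo `p`, depending on the residue
class of `p`.
-/

open Finset Filter Topology

namespace Pool.Agent.Helper9.PC

open Pool.Agent.Helper923.HMertens (PP theta_le)

lemma fin_rats (A : ℚ → Prop) {X Y : ℝ} (hX : 0 ≤ X) (hY : 0 ≤ Y) :
    ∃ S : Finset ℚ, (∀ x, x ∈ S ↔ |(x.num : ℝ)| ≤ X ∧ (x.den : ℝ) ≤ Y ∧ A x) ∧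
      (Set.ncard {x : ℚ | |(x.num : ℝ)| ≤ X ∧ (x.den : ℝ) ≤ Y ∧ A x} = S.card) ∧
      (S.card : ℝ) ≤ (2 * X + 1) * Y := by
  classical
  have hfin : {x : ℚ | |(x.num : ℝ)| ≤ X ∧ (x.den : ℝ) ≤ Y ∧ A x}.Finite := by
    have h1 : (Set.Icc (-⌊X⌋) ⌊X⌋ ×ˢ Set.Icc 1 ⌊Y⌋₊ : Set (ℤ × ℕ)).Finite :=
      (Set.finite_Icc _ _).prod (Set.finite_Icc _ _)
    refine Set.Finite.of_finite_image (f := fun x : ℚ => (x.num, x.den)) (h1.subset ?_) ?_
    · rintro _ ⟨x, ⟨hx1, hx2, -⟩, rfl⟩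
      rw [abs_le] at hx1
      refine ⟨⟨?_, ?_⟩, ⟨x.den_pos, ?_⟩⟩
      · have : ((-x.num : ℤ) : ℝ) ≤ X := by push_cast; linarith
        have := Int.le_floor.2 this
        show -⌊X⌋ ≤ x.num
        linarith
      · exact Int.le_floor.2 hx1.2
      · exact Nat.le_floor hx2
    · intro x _ y _ hxy
      simp only [Prod.mk.injEq] at hxy
      exact Rat.ext hxy.1 hxy.2
  refine ⟨hfin.toFinset, fun x => by rw [Set.Finite.mem_toFinset]; rfl,
    Set.ncard_eq_toFinset_card _ hfin, ?_⟩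
  have h2 : (hfin.toFinset.image fun x : ℚ => (x.num, x.den)) ⊆
      (Icc (-⌊X⌋) ⌊X⌋ ×ˢ Icc 1 ⌊Y⌋₊ : Finset (ℤ × ℕ)) := by
    intro z hz
    obtain ⟨x, hx, rfl⟩ := mem_image.1 hz
    rw [Set.Finite.mem_toFinset] at hx
    obtain ⟨hx1, hx2, -⟩ := hx
    rw [abs_le] at hx1
    rw [mem_product, mem_Icc, mem_Icc]
    refine ⟨⟨?_, ?_⟩, ⟨x.den_pos, ?_⟩⟩
    · have : ((-x.num : ℤ) : ℝ) ≤ X := by push_cast; linarith
      have := Int.le_floor.2 this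
      show -⌊X⌋ ≤ x.num
      linarith
    · exact Int.le_floor.2 hx1.2
    · exact Nat.le_floor hx2
  have h3 := card_le_card h2
  rw [card_image_of_injective _ (fun x y hxy => by
    simp only [Prod.mk.injEq] at hxy
    exact Rat.ext hxy.1 hxy.2), card_product, Int.card_Icc, Nat.card_Icc] at h3
  have h4 : (hfin.toFinset.card : ℝ) ≤ (((⌊X⌋ + 1 - -⌊X⌋).toNat * (⌊Y⌋₊ + 1 - 1) : ℕ) : ℝ) := by
    exact_mod_cast h3
  refine h4.trans ?_
  rw [Nat.add_sub_cancel, Nat.cast_mul]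
  have h5 : 0 ≤ ⌊X⌋ := Int.floor_nonneg.2 hX
  have h6 : (((⌊X⌋ + 1 - -⌊X⌋).toNat : ℕ) : ℝ) = 2 * (⌊X⌋ : ℝ) + 1 := by
    have : (((⌊X⌋ + 1 - -⌊X⌋).toNat : ℕ) : ℤ) = 2 * ⌊X⌋ + 1 := by
      rw [Int.toNat_of_nonneg (by omega)]; ring
    exact_mod_cast this
  rw [h6]
  refine mul_le_mul ?_ (Nat.floor_le hY) (Nat.cast_nonneg _) (by linarith)
  have := Int.floor_le X
  linarith

open Classical in
/-- The sum of `log p / p` over the primes `p ≤ Y` for which `x` does not have the property. -/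
noncomputable def badS (A : ℕ → ℚ → Prop) (x : ℚ) (Y : ℝ) : ℝ :=
  ∑ p ∈ Icc 1 ⌊Y⌋₊ with p.Prime ∧ ¬ A p x, Real.log p / p

/-- The final real arithmetic. -/
lemma arith_end {s W L c₀ η l T U : ℝ} (hs : 0 ≤ s) (hW : 0 < W)
    (h1 : 1 ≤ W - 2 * (c₀ * L) - (l + (1 + η) * L))
    (hmain : s * ((W - c₀ * L) ^ 2 - W * (l + (1 + η) * L)) ≤ W * U) (hU : U ≤ 2 * T) :
    s ≤ 2 * T := by
  have hkey : W ≤ (W - c₀ * L) ^ 2 - W * (l + (1 + η) * L) := by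
    have h2 : W * 1 ≤ W * (W - 2 * (c₀ * L) - (l + (1 + η) * L)) :=
      mul_le_mul_of_nonneg_left h1 hW.le
    have h3 : 0 ≤ (c₀ * L) ^ 2 := sq_nonneg _
    have h4 : (W - c₀ * L) ^ 2 - W * (l + (1 + η) * L) =
      W * (W - 2 * (c₀ * L) - (l + (1 + η) * L)) + (c₀ * L) ^ 2 := by ring
    rw [h4]
    linarith
  have h9 : s * W ≤ (2 * T) * W := by
    calc s * W ≤ s * ((W - c₀ * L) ^ 2 - W * (l + (1 + η) * L)) :=
          mul_le_mul_of_nonneg_left hkey hs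
      _ ≤ W * U := hmain
      _ ≤ W * (2 * T) := mul_le_mul_of_nonneg_left hU hW.le
      _ = (2 * T) * W := by ring
  exact le_of_mul_le_mul_right h9 hW


theorem sieve_final {N : ℕ} [NeZero N] (A : ℕ → ℚ → Prop) (d : ℕ) (δ : (ZMod N)ˣ → ℝ)
    (hδ : ∀ v, 0 < δ v)
    (hcls : ∀ v : (ZMod N)ˣ, ∃ (P₀ : ℕ) (M : ℝ), 0 ≤ M ∧ ∀ p : ℕ, P₀ < p → p.Prime →
      (p : ZMod N) = ((-v⁻¹ : (ZMod N)ˣ) : ZMod N) → ∀ S : Finset (ZMod p),
        (∀ t ∈ S, ∃ x : ℚ, ¬ p ∣ x.den ∧ res p x = t ∧ A p x) →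
          (S.card : ℝ) ≤ ((d : ℝ) + 1) * (δ v * p + M))
    {η θ : ℝ} (hη : 0 ≤ η)
    (hθ : (1 + η) * ((d : ℝ) + 1) * N.totient < θ * ∑ v : (ZMod N)ˣ, 1 / δ v) :
    ∃ κ : ℝ, 0 < κ ∧ ∃ C : ℝ, ∀ X : ℝ, 2 ≤ X →
      (Set.ncard {x : ℚ | |(x.num : ℝ)| ≤ X ∧ (x.den : ℝ) ≤ X ^ η ∧
        badS A x (X ^ θ) ≤ κ * Real.log X} : ℝ) ≤ C * X ^ θ := by
  classical
  have hN : 0 < N := NeZero.pos N
  obtain ⟨φ, hφ⟩ : ∃ φ : ℝ, φ = (N.totient : ℝ) := ⟨_, rfl⟩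
  have hφ0 : 0 < φ := by rw [hφ]; exact_mod_cast Nat.totient_pos.mpr hN
  obtain ⟨A₁, hA₁⟩ : ∃ A₁ : ℝ, A₁ = ∑ v : (ZMod N)ˣ, 1 / δ v := ⟨_, rfl⟩
  have hA₁0 : 0 < A₁ := by
    rw [hA₁]
    exact sum_pos (fun v _ => one_div_pos.2 (hδ v)) ⟨1, mem_univ _⟩
  rw [← hφ, ← hA₁] at hθ
  have hd1 : (0 : ℝ) < (d : ℝ) + 1 := by positivity
  have hθ0 : 0 < θ := by
    by_contra h
    push Not at h
    have h1 := mul_nonpos_of_nonpos_of_nonneg h hA₁0.le
    have h2 : 0 < (1 + η) * ((d : ℝ) + 1) * φ := by positivity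
    linarith
  -- the choice of ε
  have hf0 : 1 + η < θ * A₁ / (((d : ℝ) + 1) * (1 + 0)) * (φ⁻¹ - 0) := by
    rw [add_zero, mul_one, sub_zero, ← div_eq_mul_inv, div_div, lt_div_iff₀ (by positivity)]
    linarith
  have hcont : ContinuousAt (fun ε : ℝ => θ * A₁ / (((d : ℝ) + 1) * (1 + ε)) * (φ⁻¹ - ε)) 0 := by
    have h1 : ((d : ℝ) + 1) * (1 + 0) ≠ 0 := by positivity
    refine ContinuousAt.mul (ContinuousAt.div continuousAt_const ?_ h1) ?_
    · fun_prop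
    · fun_prop
  have hev := hcont.eventually (lt_mem_nhds hf0)
  obtain ⟨ε, hε0, hε⟩ : ∃ ε : ℝ, 0 < ε ∧ 1 + η < θ * A₁ / (((d : ℝ) + 1) * (1 + ε)) * (φ⁻¹ - ε) := by
    have h1 : ∀ᶠ ε : ℝ in 𝓝[>] 0, 1 + η < θ * A₁ / (((d : ℝ) + 1) * (1 + ε)) * (φ⁻¹ - ε) :=
      hev.filter_mono nhdsWithin_le_nhds
    have h2 : ∀ᶠ ε : ℝ in 𝓝[>] 0, 0 < ε := eventually_mem_nhdsWithin
    obtain ⟨ε, h3, h4⟩ := (h2.and h1).exists
    exact ⟨ε, h3, h4⟩
  obtain ⟨β, hβ⟩ : ∃ β : (ZMod N)ˣ → ℝ, β = fun v => ((d : ℝ) + 1) * (1 + ε) * δ v := ⟨_, rfl⟩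
  have hβ0 : ∀ v, 0 < β v := by
    intro v
    rw [hβ]
    have := hδ v
    positivity
  obtain ⟨g, hg⟩ : ∃ g : ℝ, g = (∑ v, 1 / β v) * (φ⁻¹ - ε) := ⟨_, rfl⟩
  have hsumβ : ∑ v, 1 / β v = A₁ / (((d : ℝ) + 1) * (1 + ε)) := by
    rw [hA₁, sum_div]
    refine sum_congr rfl fun v _ => ?_
    rw [hβ]
    have := (hδ v).ne'
    field_simp
  obtain ⟨Θ, hΘ⟩ : ∃ Θ : ℝ, Θ = θ * g := ⟨_, rfl⟩
  have hΘ1 : 1 + η < Θ := by
    rw [hΘ, hg, hsumβ]
    have : θ * (A₁ / (((d : ℝ) + 1) * (1 + ε)) * (φ⁻¹ - ε)) =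
      θ * A₁ / (((d : ℝ) + 1) * (1 + ε)) * (φ⁻¹ - ε) := by ring
    rw [this]
    exact hε
  have hg0 : 0 < g := by
    by_contra h
    push Not at h
    have := mul_nonpos_of_nonneg_of_nonpos hθ0.le h
    linarith
  have hsβ0 : 0 < ∑ v, 1 / β v := sum_pos (fun v _ => one_div_pos.2 (hβ0 v)) ⟨1, mem_univ _⟩
  obtain ⟨c₀, hc₀⟩ : ∃ c₀ : ℝ, c₀ = (Θ - (1 + η)) / 4 := ⟨_, rfl⟩
  have hc₀0 : 0 < c₀ := by rw [hc₀]; linarith
  obtain ⟨v₀, -, hv₀⟩ := exists_min_image (univ : Finset (ZMod N)ˣ) β ⟨1, mem_univ _⟩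
  obtain ⟨b₀, hb₀⟩ : ∃ b₀ : ℝ, b₀ = β v₀ := ⟨_, rfl⟩
  have hb₀0 : 0 < b₀ := by rw [hb₀]; exact hβ0 v₀
  have hb₀le : ∀ v, b₀ ≤ β v := fun v => by rw [hb₀]; exact hv₀ v (mem_univ _)
  choose P₀ M hM0 hcls using hcls
  choose Cm hCm using fun v : (ZMod N)ˣ => mertens_class N (-v⁻¹) hε0
  -- the threshold for the primes
  obtain ⟨P₁, hP₁⟩ : ∃ P₁ : ℕ, P₁ = max (max N (univ.sup P₀))
      (max (univ.sup fun v => ⌈M v / (ε * δ v)⌉₊) ⌈η / (b₀ * c₀ / 2)⌉₊) := ⟨_, rfl⟩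
  have hP₁a : N ≤ P₁ := by rw [hP₁]; exact (le_max_left _ _).trans (le_max_left _ _)
  have hP₁b : ∀ v, P₀ v ≤ P₁ := by
    intro v
    rw [hP₁]
    exact (le_sup (f := P₀) (mem_univ v)).trans ((le_max_right _ _).trans (le_max_left _ _))
  have hP₁c : ∀ v, M v ≤ ε * δ v * P₁ := by
    intro v
    have h1 : ⌈M v / (ε * δ v)⌉₊ ≤ P₁ := by
      rw [hP₁]
      exact (le_sup (f := fun v => ⌈M v / (ε * δ v)⌉₊) (mem_univ v)).trans
        ((le_max_left _ _).trans (le_max_right _ _))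
    have h2 : M v / (ε * δ v) ≤ P₁ := (Nat.le_ceil _).trans (by exact_mod_cast h1)
    rw [div_le_iff₀ (mul_pos hε0 (hδ v))] at h2
    linarith
  have hP₁d : η ≤ b₀ * c₀ / 2 * P₁ := by
    have h1 : ⌈η / (b₀ * c₀ / 2)⌉₊ ≤ P₁ := by
      rw [hP₁]
      exact (le_max_right _ _).trans (le_max_right _ _)
    have h2 : η / (b₀ * c₀ / 2) ≤ P₁ := (Nat.le_ceil _).trans (by exact_mod_cast h1)
    rw [div_le_iff₀ (by positivity)] at h2
    linarith
  let vp : ℕ → (ZMod N)ˣ := fun p => if h : p.Coprime N then -(ZMod.unitOfCoprime p h)⁻¹ else 1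
  have hcop : ∀ p : ℕ, p.Prime → P₁ < p → p.Coprime N := by
    intro p hp hpP
    rw [hp.coprime_iff_not_dvd]
    intro hdvd
    have := Nat.le_of_dvd hN hdvd
    omega
  have hvp : ∀ p : ℕ, p.Prime → P₁ < p → (p : ZMod N) = ((-(vp p)⁻¹ : (ZMod N)ˣ) : ZMod N) := by
    intro p hp hpP
    have h := hcop p hp hpP
    have h1 : vp p = -(ZMod.unitOfCoprime p h)⁻¹ := dif_pos h
    have h2 : -(vp p)⁻¹ = ZMod.unitOfCoprime p h := by
      rw [h1, inv_neg, inv_inv, neg_neg]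
    rw [h2, ZMod.coe_unitOfCoprime]
  obtain ⟨Cp, hCp⟩ : ∃ Cp : ℝ, Cp = ∑ p ∈ PP P₁, Real.log p / p := ⟨_, rfl⟩
  have hCp0 : 0 ≤ Cp := by
    rw [hCp]
    exact sum_nonneg fun p _ => div_nonneg (Real.log_natCast_nonneg p) (Nat.cast_nonneg p)
  obtain ⟨C₁, hC₁⟩ : ∃ C₁ : ℝ, C₁ = g * Real.log 2 + ∑ v, (1 / β v) * (Cm v + Cp) := ⟨_, rfl⟩
  obtain ⟨L₀, hL₀⟩ : ∃ L₀ : ℝ, L₀ = max 1 ((|C₁| + Real.log 2 + 1) / c₀) := ⟨_, rfl⟩
  refine ⟨b₀ * c₀ / 2, by positivity, max 2 ((2 * Real.exp L₀ + 1) * (Real.exp L₀) ^ η),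
    fun X hX => ?_⟩
  have hX0 : 0 < X := by linarith
  have hXθ : 1 ≤ X ^ θ := Real.one_le_rpow (by linarith) hθ0.le
  have hXη : 1 ≤ X ^ η := Real.one_le_rpow (by linarith) hη
  obtain ⟨S, hS1, hS2, hS3⟩ := fin_rats (fun x => badS A x (X ^ θ) ≤ b₀ * c₀ / 2 * Real.log X)
    hX0.le (by linarith : (0 : ℝ) ≤ X ^ η)
  rw [hS2]
  obtain ⟨L, hL⟩ : ∃ L : ℝ, L = Real.log X := ⟨_, rfl⟩
  rw [← hL] at hS1
  rcases lt_or_ge L L₀ with hlt | hge
  · have h1 : X < Real.exp L₀ := by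
      rw [hL] at hlt
      exact (Real.log_lt_iff_lt_exp hX0).1 hlt
    have h2 : X ^ η ≤ (Real.exp L₀) ^ η := Real.rpow_le_rpow hX0.le h1.le hη
    calc (S.card : ℝ) ≤ (2 * X + 1) * X ^ η := hS3
      _ ≤ (2 * Real.exp L₀ + 1) * (Real.exp L₀) ^ η := by
          refine mul_le_mul (by linarith) h2 (by positivity) (by positivity)
      _ ≤ max 2 ((2 * Real.exp L₀ + 1) * (Real.exp L₀) ^ η) := le_max_right _ _
      _ = max 2 ((2 * Real.exp L₀ + 1) * (Real.exp L₀) ^ η) * 1 := (mul_one _).symm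
      _ ≤ max 2 ((2 * Real.exp L₀ + 1) * (Real.exp L₀) ^ η) * X ^ θ := by
          refine mul_le_mul_of_nonneg_left hXθ ?_
          exact le_trans (by norm_num) (le_max_left _ _)
  have hL1 : 1 ≤ L := by
    rw [hL₀] at hge
    exact (le_max_left _ _).trans hge
  have hL2 : |C₁| + Real.log 2 + 1 ≤ c₀ * L := by
    have h1 : (|C₁| + Real.log 2 + 1) / c₀ ≤ L := by
      rw [hL₀] at hge
      exact (le_max_right _ _).trans hge
    rw [div_le_iff₀ hc₀0] at h1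
    linarith
  obtain ⟨n, hn⟩ : ∃ n : ℕ, n = ⌊X ^ θ⌋₊ := ⟨_, rfl⟩
  have hn1 : 1 ≤ n := by rw [hn]; exact Nat.le_floor (by exact_mod_cast hXθ)
  have hnX : (n : ℝ) ≤ X ^ θ := by rw [hn]; exact Nat.floor_le (by positivity)
  have hnX2 : X ^ θ / 2 ≤ n := by
    rw [hn]
    have h1 := Nat.lt_floor_add_one (X ^ θ)
    have h2 : (1 : ℝ) ≤ ⌊X ^ θ⌋₊ := by rw [← hn]; exact_mod_cast hn1
    linarith
  have hθL : θ * L = Real.log (X ^ θ) := by rw [hL, Real.log_rpow hX0]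
  have hlogn : θ * L - Real.log 2 ≤ Real.log n := by
    rw [hθL, ← Real.log_div (by positivity) (by norm_num)]
    exact Real.log_le_log (by positivity) hnX2
  obtain ⟨P, hP⟩ : ∃ P : Finset ℕ, P = (PP n).filter (fun p => P₁ < p) := ⟨_, rfl⟩
  have hPp : ∀ p ∈ P, p.Prime ∧ P₁ < p ∧ p ≤ n := by
    intro p hp
    rw [hP, mem_filter, mem_filter, mem_Icc] at hp
    exact ⟨hp.1.2, hp.2, hp.1.1.2⟩
  obtain ⟨W, hW⟩ : ∃ W : ℝ, W = ∑ p ∈ P, Real.log p / (β (vp p) * p) := ⟨_, rfl⟩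
  have hWlow : Θ * L - C₁ ≤ W := by
    have h1 : W = ∑ v, ∑ p ∈ P with vp p = v, (1 / β v) * (Real.log p / p) := by
      rw [hW, ← sum_fiberwise P vp]
      refine sum_congr rfl fun v _ => sum_congr rfl fun p hp => ?_
      rw [(mem_filter.1 hp).2]
      have := (hβ0 v).ne'
      field_simp
    have h2 : ∀ v : (ZMod N)ˣ, (φ⁻¹ - ε) * Real.log n - (Cm v + Cp) ≤
        ∑ p ∈ P with vp p = v, Real.log p / p := by
      intro v
      have h3 := hCm v n hn1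
      rw [← hφ] at h3
      have h4 : prc N ((-v⁻¹ : (ZMod N)ˣ) : ZMod N) n ⊆ (P.filter fun p => vp p = v) ∪ PP P₁ := by
        intro p hp
        rw [mem_prc] at hp
        obtain ⟨hp1, hp2, hp3⟩ := hp
        rw [mem_union]
        rcases Nat.lt_or_ge P₁ p with h | h
        · left
          rw [mem_filter, hP, mem_filter, mem_filter, mem_Icc]
          refine ⟨⟨⟨⟨hp2.one_lt.le, hp1⟩, hp2⟩, h⟩, ?_⟩
          have h5 := hvp p hp2 h
          rw [hp3] at h5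
          have h6 : (-v⁻¹ : (ZMod N)ˣ) = -(vp p)⁻¹ := Units.ext h5
          have h7 : v⁻¹ = (vp p)⁻¹ := neg_injective h6
          exact (inv_injective h7).symm
        · right
          rw [mem_filter, mem_Icc]
          exact ⟨⟨hp2.one_lt.le, h⟩, hp2⟩
      have h5 : ∑ p ∈ prc N ((-v⁻¹ : (ZMod N)ˣ) : ZMod N) n, Real.log p / p ≤
          ∑ p ∈ P with vp p = v, Real.log p / p + Cp := by
        have hnn : ∀ p : ℕ, 0 ≤ Real.log p / p := fun p =>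
          div_nonneg (Real.log_natCast_nonneg p) (Nat.cast_nonneg p)
        refine (sum_le_sum_of_subset_of_nonneg h4 fun p _ _ => hnn p).trans ?_
        have e1 := sum_union_inter (s₁ := P.filter fun p => vp p = v) (s₂ := PP P₁)
          (f := fun p : ℕ => Real.log p / p)
        have e3 : 0 ≤ ∑ p ∈ (P.filter fun p => vp p = v) ∩ PP P₁, Real.log p / p :=
          sum_nonneg fun p _ => hnn p
        rw [hCp]
        linarith
      linarith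
    have h3 : ∑ v, (1 / β v) * ((φ⁻¹ - ε) * Real.log n - (Cm v + Cp)) ≤ W := by
      rw [h1]
      refine sum_le_sum fun v _ => ?_
      rw [← mul_sum]
      exact mul_le_mul_of_nonneg_left (h2 v) (one_div_pos.2 (hβ0 v)).le
    have h4 : ∑ v, (1 / β v) * ((φ⁻¹ - ε) * Real.log n - (Cm v + Cp)) =
        g * Real.log n - ∑ v, (1 / β v) * (Cm v + Cp) := by
      rw [hg, sum_mul, sum_mul, ← sum_sub_distrib]
      refine sum_congr rfl fun v _ => by ring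
    rw [h4] at h3
    have h5 := mul_le_mul_of_nonneg_left hlogn hg0.le
    rw [hC₁, hΘ]
    linarith
  have hB0 : ∀ p ∈ P, 0 < β (vp p) * p := by
    intro p hp
    have : (0 : ℝ) < p := by exact_mod_cast (hPp p hp).1.pos
    exact mul_pos (hβ0 _) this
  obtain ⟨G, hG⟩ : ∃ G : ℕ → ℚ → Prop, ∀ p x, G p x ↔ (¬ p ∣ x.den ∧ A p x) :=
    ⟨fun p x => ¬ p ∣ x.den ∧ A p x, fun p x => Iff.rfl⟩
  -- the number of classes
  have hclass : ∀ p ∈ P, (((S.filter (G p)).image (res p)).card : ℝ) ≤ β (vp p) * p := by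
    intro p hp
    obtain ⟨hp1, hp2, hp3⟩ := hPp p hp
    have h1 := hcls (vp p) p (lt_of_le_of_lt (hP₁b _) hp2) hp1 (hvp p hp1 hp2)
      ((S.filter (G p)).image (res p)) (by
        intro t ht
        obtain ⟨x, hx, rfl⟩ := mem_image.1 ht
        have hx2 := (hG p x).1 (mem_filter.1 hx).2
        exact ⟨x, hx2.1, rfl, hx2.2⟩)
    refine h1.trans ?_
    have h2 := hP₁c (vp p)
    have h3 : ε * δ (vp p) * P₁ ≤ ε * δ (vp p) * p := by
      refine mul_le_mul_of_nonneg_left ?_ (mul_pos hε0 (hδ _)).le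
      exact_mod_cast hp2.le
    have h4 : δ (vp p) * p + M (vp p) ≤ (1 + ε) * δ (vp p) * p := by linarith
    calc ((d : ℝ) + 1) * (δ (vp p) * p + M (vp p)) ≤ ((d : ℝ) + 1) * ((1 + ε) * δ (vp p) * p) :=
          mul_le_mul_of_nonneg_left h4 hd1.le
      _ = β (vp p) * p := by rw [hβ]; ring
  -- the good primes of the elements of `S`
  have hSV : ∀ x ∈ S, W - c₀ * L ≤ ∑ p ∈ P with G p x, Real.log p / (β (vp p) * p) := by
    intro x hx
    obtain ⟨hx1, hx2, hx3⟩ := (hS1 x).1 hx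
    have h1 : W = ∑ p ∈ P with G p x, Real.log p / (β (vp p) * p) +
        ∑ p ∈ P with ¬ G p x, Real.log p / (β (vp p) * p) := by
      rw [hW, sum_filter_add_sum_filter_not]
    have h2 : ∑ p ∈ P with ¬ G p x, Real.log p / (β (vp p) * p) ≤
        (∑ p ∈ P with ¬ G p x, Real.log p / p) / b₀ := by
      rw [sum_div]
      refine sum_le_sum fun p hp => ?_
      have hp0 : (0 : ℝ) < p := by exact_mod_cast (hPp p (mem_filter.1 hp).1).1.pos
      rw [div_div]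
      refine div_le_div_of_nonneg_left (Real.log_natCast_nonneg p) (by positivity) ?_
      rw [mul_comm]
      exact mul_le_mul_of_nonneg_right (hb₀le _) hp0.le
    have h3 : ∑ p ∈ P with ¬ G p x, Real.log p / p ≤
        ∑ p ∈ P with p ∣ x.den, Real.log p / p + badS A x (X ^ θ) := by
      have e1 : (P.filter fun p => ¬ G p x) ⊆ (P.filter fun p => p ∣ x.den) ∪
          ((Icc 1 ⌊X ^ θ⌋₊).filter fun p => p.Prime ∧ ¬ A p x) := by
        intro p hp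
        rw [mem_filter] at hp
        obtain ⟨hp1, hp2, hp3⟩ := hPp p hp.1
        rw [mem_union, mem_filter, mem_filter, mem_Icc, ← hn]
        by_cases hdvd : p ∣ x.den
        · exact Or.inl ⟨hp.1, hdvd⟩
        · exact Or.inr ⟨⟨hp1.one_lt.le, hp3⟩, hp1, fun h => hp.2 ((hG p x).2 ⟨hdvd, h⟩)⟩
      have hnn : ∀ p : ℕ, 0 ≤ Real.log p / p := fun p =>
        div_nonneg (Real.log_natCast_nonneg p) (Nat.cast_nonneg p)
      refine (sum_le_sum_of_subset_of_nonneg e1 fun p _ _ => hnn p).trans ?_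
      have e2 := sum_union_inter (s₁ := P.filter fun p => p ∣ x.den)
        (s₂ := (Icc 1 ⌊X ^ θ⌋₊).filter fun p => p.Prime ∧ ¬ A p x)
        (f := fun p : ℕ => Real.log p / p)
      have e3 : 0 ≤ ∑ p ∈ (P.filter fun p => p ∣ x.den) ∩
          ((Icc 1 ⌊X ^ θ⌋₊).filter fun p => p.Prime ∧ ¬ A p x), Real.log p / p :=
        sum_nonneg fun p _ => hnn p
      unfold badS
      linarith
    have h4 : ∑ p ∈ P with p ∣ x.den, Real.log p / p ≤ b₀ * c₀ / 2 * L := by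
      rcases Nat.eq_zero_or_pos P₁ with hz | hz
      · omega
      have hP1r : (0 : ℝ) < P₁ := by exact_mod_cast hz
      have e1 : ∑ p ∈ P with p ∣ x.den, Real.log p / p ≤
          (∑ p ∈ P with p ∣ x.den, Real.log p) / P₁ := by
        rw [sum_div]
        refine sum_le_sum fun p hp => ?_
        have hp1 := (hPp p (mem_filter.1 hp).1).2.1
        refine div_le_div_of_nonneg_left (Real.log_natCast_nonneg p) hP1r ?_
        exact_mod_cast hp1.le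
      have e2 := Pool.Agent.TH924.PC.sum_log_dvd (P := P) (fun p hp => (hPp p hp).1)
        (m := x.den) x.den_nz
      have e3 : Real.log x.den ≤ η * L := by
        have : Real.log (X ^ η) = η * L := by rw [Real.log_rpow hX0, hL]
        rw [← this]
        exact Real.log_le_log (by exact_mod_cast x.den_pos) hx2
      have e4 : (∑ p ∈ P with p ∣ x.den, Real.log p) / P₁ ≤ η * L / P₁ :=
        div_le_div_of_nonneg_right (e2.trans e3) hP1r.le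
      have e5 : η * L / P₁ ≤ b₀ * c₀ / 2 * L := by
        rw [div_le_iff₀ hP1r]
        have := mul_le_mul_of_nonneg_right hP₁d (by linarith : (0 : ℝ) ≤ L)
        linarith
      linarith
    have h5 : (∑ p ∈ P with ¬ G p x, Real.log p / p) / b₀ ≤ c₀ * L := by
      rw [div_le_iff₀ hb₀0]
      have : c₀ * L * b₀ = b₀ * c₀ / 2 * L + b₀ * c₀ / 2 * L := by ring
      rw [this]
      linarith
    linarith
  have hC₁abs := le_abs_self C₁
  have hlog2 : 0 < Real.log 2 := Real.log_pos (by norm_num)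
  have hcL : 4 * c₀ * L = (Θ - (1 + η)) * L := by rw [hc₀]; ring
  have hηL : 0 ≤ η * L := mul_nonneg hη (by linarith)
  have hWc : c₀ * L ≤ W := by
    have h1 : 0 ≤ (1 + η) * L := by positivity
    have h2 : 0 ≤ c₀ * L := by positivity
    linarith [abs_nonneg C₁]
  have hXY1 : 1 ≤ X * X ^ η := by
    have : (1 : ℝ) * 1 ≤ X * X ^ η :=
      mul_le_mul (by linarith) hXη (by norm_num) (by linarith)
    rwa [one_mul] at this
  have hmain := larger (G := G) (P := P) (fun p hp => (hPp p hp).1) (fun p _ x hx => ((hG p x).1 hx).1)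
    (fun p => β (vp p) * p) hB0 hclass (X := X) (Y := X ^ η) (V := W - c₀ * L)
    hXY1 hX0.le (fun x hx => ⟨((hS1 x).1 hx).1, ((hS1 x).1 hx).2.1⟩) (sub_nonneg.2 hWc) hSV
  have hlog : Real.log (2 * (X * X ^ η)) = Real.log 2 + (1 + η) * L := by
    rw [Real.log_mul (by norm_num) (mul_pos hX0 (lt_of_lt_of_le one_pos hXη)).ne',
      Real.log_mul hX0.ne' (lt_of_lt_of_le one_pos hXη).ne',
      Real.log_rpow hX0, ← hL]
    ring
  rw [hlog] at hmain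
  have hth : ∑ p ∈ P, Real.log p ≤ 2 * X ^ θ := by
    have h1 : ∑ p ∈ P, Real.log p ≤ ∑ p ∈ PP n, Real.log p := by
      rw [hP]
      refine sum_le_sum_of_subset_of_nonneg (filter_subset _ _) fun p _ _ => ?_
      exact Real.log_natCast_nonneg p
    have h2 := theta_le n
    exact h1.trans (h2.trans (mul_le_mul_of_nonneg_left hnX (by norm_num)))
  have hWpos : 0 < W := lt_of_lt_of_le (mul_pos hc₀0 (lt_of_lt_of_le one_pos hL1)) hWc
  have h1 : 1 ≤ W - 2 * (c₀ * L) - (Real.log 2 + (1 + η) * L) := by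
    have e1 : (Θ - (1 + η)) * L = Θ * L - (1 + η) * L := by ring
    have e2 : 4 * c₀ * L = 2 * (c₀ * L) + 2 * (c₀ * L) := by ring
    have e3 : c₀ * L ≤ 2 * (c₀ * L) := by
      have := mul_pos hc₀0 (lt_of_lt_of_le one_pos hL1)
      linarith
    linarith
  have h10 := arith_end (s := (S.card : ℝ)) (W := W) (L := L) (c₀ := c₀) (η := η) (l := Real.log 2)
    (T := X ^ θ) (U := ∑ p ∈ P, Real.log p) (Nat.cast_nonneg _) hWpos h1
    (by rw [hW]; rw [hW] at hmain; exact hmain) hth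
  exact h10.trans (mul_le_mul_of_nonneg_right (le_max_left _ _) (by linarith))

end Pool.Agent.Helper9.PC
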