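import Pool.Agent.Helper9.PC.Two

set_option autoImplicit false

/-!
The sum of `1 / ‖v y‖` over the units `v` modulo `N`.
-/

open Finset

namespace Pool.Agent.Helper9.PC

/-- The sum of `1 / k` over the `k ≤ K` not divisible by any element of `S`. -/
def FS (S : Finset ℕ) (K : ℕ) : ℚ := ∑ k ∈ Icc 1 K with (∀ p ∈ S, ¬ p ∣ k), (k : ℚ)⁻¹

lemma FS_nonneg (S : Finset ℕ) (K : ℕ) : 0 ≤ FS S K :=
  sum_nonneg fun k _ => inv_nonneg.2 (Nat.cast_nonneg k)

lemma FS_insert {S : Finset ℕ} {p : ℕ} (hp : 1 < p) (K : ℕ) :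
    (1 - (p : ℚ)⁻¹) * FS S K ≤ FS (insert p S) K := by
  have h1 : FS S K = FS (insert p S) K +
      ∑ k ∈ Icc 1 K with ((∀ q ∈ S, ¬ q ∣ k) ∧ p ∣ k), (k : ℚ)⁻¹ := by
    unfold FS
    rw [← sum_filter_add_sum_filter_not ((Icc 1 K).filter fun k => ∀ q ∈ S, ¬ q ∣ k)
      (fun k => ¬ p ∣ k), filter_filter, filter_filter]
    congr 1
    · refine sum_congr ?_ fun _ _ => rfl
      ext k
      simp only [mem_filter, mem_insert, forall_eq_or_imp]
      tauto
    · refine sum_congr ?_ fun _ _ => rfl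
      ext k
      simp only [mem_filter, not_not]
  have h2 : ∑ k ∈ Icc 1 K with ((∀ q ∈ S, ¬ q ∣ k) ∧ p ∣ k), (k : ℚ)⁻¹ ≤ (p : ℚ)⁻¹ * FS S K := by
    have hp0 : (0 : ℕ) < p := by omega
    have e1 : ∑ k ∈ Icc 1 K with ((∀ q ∈ S, ¬ q ∣ k) ∧ p ∣ k), (k : ℚ)⁻¹ =
        ∑ k ∈ Icc 1 K with ((∀ q ∈ S, ¬ q ∣ k) ∧ p ∣ k), (p : ℚ)⁻¹ * (((k / p : ℕ) : ℚ))⁻¹ := by
      refine sum_congr rfl fun k hk => ?_
      obtain ⟨l, rfl⟩ := (mem_filter.1 hk).2.2
      rw [Nat.mul_div_cancel_left _ hp0, Nat.cast_mul, mul_inv]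
    rw [e1, ← mul_sum]
    refine mul_le_mul_of_nonneg_left ?_ (inv_nonneg.2 (Nat.cast_nonneg p))
    have hinj : Set.InjOn (fun k => k / p)
        (((Icc 1 K).filter fun k => (∀ q ∈ S, ¬ q ∣ k) ∧ p ∣ k : Finset ℕ) : Set ℕ) := by
      intro k hk l hl hkl
      rw [mem_coe, mem_filter] at hk hl
      obtain ⟨x, rfl⟩ := hk.2.2
      obtain ⟨y, rfl⟩ := hl.2.2
      simp only [Nat.mul_div_cancel_left _ hp0] at hkl
      rw [hkl]
    rw [← sum_image (f := fun k : ℕ => (k : ℚ)⁻¹) hinj]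
    unfold FS
    refine sum_le_sum_of_subset_of_nonneg ?_ fun k _ _ => inv_nonneg.2 (Nat.cast_nonneg k)
    intro l hl
    obtain ⟨k, hk, rfl⟩ := mem_image.1 hl
    rw [mem_filter, mem_Icc] at hk
    obtain ⟨⟨hk1, hk2⟩, hk3, x, rfl⟩ := hk
    simp only [Nat.mul_div_cancel_left _ hp0]
    rw [mem_filter, mem_Icc]
    refine ⟨⟨?_, ?_⟩, fun q hq hqx => hk3 q hq (hqx.trans (Dvd.intro_left p rfl))⟩
    · rcases Nat.eq_zero_or_pos x with h | h
      · subst h; omega
      · exact h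
    · exact (Nat.le_mul_of_pos_left x hp0).trans hk2
  linarith

lemma FS_prod {S : Finset ℕ} (hS : ∀ p ∈ S, 1 < p) (K : ℕ) :
    (∏ p ∈ S, (1 - (p : ℚ)⁻¹)) * harmonic K ≤ FS S K := by
  classical
  induction S using Finset.induction_on with
  | empty =>
    rw [prod_empty, one_mul, harmonic_eq_sum_Icc]
    unfold FS
    simp
  | insert p S hpS ih =>
    have h1 := ih fun q hq => hS q (mem_insert_of_mem hq)
    have hp := hS p (mem_insert_self p S)
    rw [prod_insert hpS, mul_assoc]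
    refine le_trans (mul_le_mul_of_nonneg_left h1 ?_) (FS_insert hp K)
    rw [sub_nonneg]
    exact inv_le_one_of_one_le₀ (by exact_mod_cast hp.le)

lemma coprime_sum {M : ℕ} (hM : 0 < M) (K : ℕ) :
    (M.totient : ℚ) * harmonic K ≤ M * ∑ k ∈ Icc 1 K with k.Coprime M, (k : ℚ)⁻¹ := by
  have h1 := FS_prod (S := M.primeFactors) (fun p hp => (Nat.prime_of_mem_primeFactors hp).one_lt) K
  have h2 : FS M.primeFactors K = ∑ k ∈ Icc 1 K with k.Coprime M, (k : ℚ)⁻¹ := by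
    unfold FS
    refine sum_congr ?_ fun _ _ => rfl
    ext k
    simp only [mem_filter, mem_Icc, and_congr_right_iff, and_imp]
    intro hk _
    rw [Nat.coprime_comm]
    constructor
    · intro h
      by_contra hc
      obtain ⟨p, hp, hp1, hp2⟩ := Nat.Prime.not_coprime_iff_dvd.1 hc
      exact h p (Nat.mem_primeFactors.2 ⟨hp, hp1, hM.ne'⟩) hp2
    · intro h p hp hpk
      have hpp := Nat.prime_of_mem_primeFactors hp
      exact Nat.not_coprime_of_dvd_of_dvd hpp.one_lt (Nat.dvd_of_mem_primeFactors hp) hpk h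
  rw [← h2, Nat.totient_eq_mul_prod_factors, mul_assoc]
  exact mul_le_mul_of_nonneg_left h1 (Nat.cast_nonneg M)

/-- The function `1 / ‖w / M‖` on the units modulo `M`. -/
def gM (M : ℕ) (w : (ZMod M)ˣ) : ℚ := (nint (((w : ZMod M).val : ℚ) / M))⁻¹

lemma gM_nonneg (M : ℕ) (w : (ZMod M)ˣ) : 0 ≤ gM M w := inv_nonneg.2 (nint_nonneg _)

lemma sum_gM {M : ℕ} [NeZero M] :
    2 * ((M.totient : ℚ) * harmonic ((M - 1) / 2)) ≤ ∑ w : (ZMod M)ˣ, gM M w := by
  classical
  have hM : 0 < M := NeZero.pos M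
  have hMQ : (0 : ℚ) < M := by exact_mod_cast hM
  obtain ⟨K, hK⟩ : ∃ K, K = (M - 1) / 2 := ⟨_, rfl⟩
  have hK2 : 2 * K < M := by omega
  rw [← hK]
  obtain ⟨A, hA⟩ : ∃ A : Finset ℕ, A = (Icc 1 K).filter fun k => k.Coprime M := ⟨_, rfl⟩
  obtain ⟨F, hF⟩ : ∃ F : ℕ → (ZMod M)ˣ, ∀ k ∈ A, (F k : ZMod M) = k := by
    refine ⟨fun k => if h : k.Coprime M then ZMod.unitOfCoprime k h else 1, fun k hk => ?_⟩
    rw [hA, mem_filter] at hk
    have h := hk.2
    have h' : (fun k => if h : k.Coprime M then ZMod.unitOfCoprime k h else 1) k =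
      ZMod.unitOfCoprime k h := dif_pos h
    rw [h', ZMod.coe_unitOfCoprime]
  have hAk : ∀ k ∈ A, 1 ≤ k ∧ k ≤ K := fun k hk => by
    rw [hA, mem_filter, mem_Icc] at hk
    exact hk.1
  have hval : ∀ k ∈ A, (F k : ZMod M).val = k := fun k hk => by
    rw [hF k hk]
    exact ZMod.val_natCast_of_lt (by have := hAk k hk; omega)
  have hnk : ∀ k ∈ A, nint ((k : ℚ) / M) = k / M := by
    intro k hk
    have h1 := hAk k hk
    have h2 : (k : ℚ) / M ≤ 1 / 2 := by
      rw [div_le_div_iff₀ hMQ (by norm_num)]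
      have : 2 * k < M := by omega
      have h3 : (2 : ℚ) * k < M := by exact_mod_cast this
      linarith
    rw [nint_of_mem (by positivity) (by linarith)]
    exact min_eq_left (by linarith)
  have hgF : ∀ k ∈ A, gM M (F k) = M * (k : ℚ)⁻¹ := by
    intro k hk
    unfold gM
    rw [hval k hk, hnk k hk, inv_div, div_eq_mul_inv]
  have hgF' : ∀ k ∈ A, gM M (-F k) = M * (k : ℚ)⁻¹ := by
    intro k hk
    have hk0 := hAk k hk
    unfold gM
    have h1 : ((-F k : (ZMod M)ˣ) : ZMod M).val = M - k := by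
      have h2 : ((-F k : (ZMod M)ˣ) : ZMod M) = ((M - k : ℕ) : ZMod M) := by
        rw [Units.val_neg, hF k hk, Nat.cast_sub (by omega), ZMod.natCast_self, zero_sub]
      rw [h2]
      exact ZMod.val_natCast_of_lt (by omega)
    rw [h1]
    have h3 : (((M - k : ℕ) : ℚ)) / M = -((k : ℚ) / M) + ((1 : ℤ) : ℚ) := by
      rw [Nat.cast_sub (by omega)]
      field_simp
      push_cast
      ring
    rw [h3, nint_add_int, nint_neg, hnk k hk, inv_div, div_eq_mul_inv]
  have hinj1 : Set.InjOn F (A : Set ℕ) := by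
    intro k hk l hl hkl
    rw [← hval k hk, ← hval l hl, hkl]
  have hinj2 : Set.InjOn (fun k => -F k) (A : Set ℕ) := by
    intro k hk l hl hkl
    exact hinj1 hk hl (neg_injective hkl)
  have hdisj : Disjoint (A.image F) (A.image fun k => -F k) := by
    rw [disjoint_left]
    intro x hx hx'
    obtain ⟨k, hk, rfl⟩ := mem_image.1 hx
    obtain ⟨l, hl, hkl⟩ := mem_image.1 hx'
    have h1 : ((k + l : ℕ) : ZMod M) = 0 := by
      push_cast
      rw [← hF k hk, ← hF l hl, ← hkl, Units.val_neg]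
      ring
    rw [ZMod.natCast_eq_zero_iff] at h1
    have := Nat.le_of_dvd (by have := hAk k hk; omega) h1
    have h2 := hAk k hk
    have h3 := hAk l hl
    omega
  have h1 : ∑ w ∈ A.image F ∪ A.image (fun k => -F k), gM M w ≤ ∑ w : (ZMod M)ˣ, gM M w :=
    sum_le_sum_of_subset_of_nonneg (subset_univ _) fun w _ _ => gM_nonneg M w
  rw [sum_union hdisj, sum_image hinj1, sum_image hinj2, sum_congr rfl hgF, sum_congr rfl hgF',
    ← mul_sum] at h1
  have h2 := coprime_sum hM K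
  rw [← hA] at h2
  linarith

theorem sum_units {N : ℕ} [NeZero N] {y : ℚ} (hy : y.den ∣ N) :
    2 * ((N.totient : ℚ) * harmonic ((y.den - 1) / 2)) ≤
      ∑ v : (ZMod N)ˣ, (nint (((v : ZMod N).val : ℚ) * y))⁻¹ := by
  classical
  obtain ⟨M, hM⟩ : ∃ M, M = y.den := ⟨_, rfl⟩
  rw [← hM] at hy ⊢
  have hM0 : 0 < M := by rw [hM]; exact y.den_pos
  have hMQ : (M : ℚ) ≠ 0 := by exact_mod_cast hM0.ne'
  have : NeZero M := ⟨hM0.ne'⟩
  have hNM : (M : ℤ) ∣ (N : ℤ) := by exact_mod_cast hy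
  -- the unit `c`
  have hc : IsUnit ((y.num : ℤ) : ZMod M) := by
    rw [ZMod.coe_int_isUnit_iff_isCoprime, hM, Int.isCoprime_iff_gcd_eq_one]
    have := y.reduced
    rw [Nat.coprime_comm] at this
    exact this
  obtain ⟨γ, hγ⟩ := hc
  have hterm : ∀ v : (ZMod N)ˣ, (nint (((v : ZMod N).val : ℚ) * y))⁻¹ =
      gM M (ZMod.unitsMap hy v * γ) := by
    intro v
    unfold gM
    congr 1
    have h1 : (((((v : ZMod N).val : ℤ) * y.num : ℤ)) : ZMod M) =
        ((((ZMod.unitsMap hy v * γ : (ZMod M)ˣ) : ZMod M).val : ℤ) : ZMod M) := by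
      rw [Int.cast_natCast, ZMod.natCast_zmod_val, Int.cast_mul, Int.cast_natCast, Units.val_mul, hγ,
        ZMod.unitsMap_val, ZMod.natCast_val]
    rw [ZMod.intCast_eq_intCast_iff_dvd_sub] at h1
    obtain ⟨z, hz⟩ := h1
    have h2 : ((v : ZMod N).val : ℚ) * y =
        ((((ZMod.unitsMap hy v * γ : (ZMod M)ˣ) : ZMod M).val : ℚ)) / M + ((-z : ℤ) : ℚ) := by
      have h3 : y = y.num / M := by rw [hM]; exact (Rat.num_div_den y).symm
      have h4 := congrArg (fun x : ℤ => (x : ℚ)) hz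
      push_cast at h4
      rw [h3]
      rw [h3] at h4
      field_simp
      have h5 : (y.num : ℚ) / M = y := h3.symm
      push_cast
      have h6 : (((y.num : ℚ) / M).num : ℚ) = y.num := by rw [h5]
      rw [h6] at h4
      linarith
    rw [h2, nint_add_int]
  simp only [hterm]
  -- the fibres
  have hsurj := ZMod.unitsMap_surjective hy
  obtain ⟨κ, hκ⟩ : ∃ κ : ℕ, κ = (univ.filter fun v : (ZMod N)ˣ => ZMod.unitsMap hy v = 1).card :=
    ⟨_, rfl⟩
  have hfib : ∀ w : (ZMod M)ˣ, (univ.filter fun v : (ZMod N)ˣ => ZMod.unitsMap hy v = w).card = κ := by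
    intro w
    rw [hκ]
    exact MonoidHom.card_fiber_eq_of_mem_range _ (hsurj w) (hsurj 1)
  have hsum : ∀ f : (ZMod M)ˣ → ℚ, ∑ v : (ZMod N)ˣ, f (ZMod.unitsMap hy v) = κ * ∑ w, f w := by
    intro f
    rw [← sum_fiberwise univ (ZMod.unitsMap hy), mul_sum]
    refine sum_congr rfl fun w _ => ?_
    rw [sum_congr rfl (g := fun _ => f w) fun v hv => by rw [(mem_filter.1 hv).2], sum_const,
      hfib w, nsmul_eq_mul]
  have hcard : (N.totient : ℚ) = κ * M.totient := by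
    have h1 := hsum fun _ => 1
    rw [sum_const, sum_const, card_univ, card_univ, ZMod.card_units_eq_totient,
      ZMod.card_units_eq_totient] at h1
    simpa using h1
  rw [hsum fun w => gM M (w * γ)]
  have h2 : ∑ w : (ZMod M)ˣ, gM M (w * γ) = ∑ w : (ZMod M)ˣ, gM M w :=
    Equiv.sum_comp (Equiv.mulRight γ) (gM M)
  rw [h2, hcard]
  have h3 := mul_le_mul_of_nonneg_left (sum_gM (M := M)) (Nat.cast_nonneg (α := ℚ) κ)
  linarith

end Pool.Agent.Helper9.PC
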