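import Pool.Agent.Helper9.PC.Harm

set_option autoImplicit false

/-!
The number of the accessory parameters with few bad primes: order two and Heun operators.
-/

open Polynomial Finset

namespace Pool.Agent.Helper9.PC

open Pool.Agent.W432.PC (T wt lexLE)
open Pool.Agent.W432.WB (FullMod IsFuchs HasExps fuchs cw)
open Pool.Agent.W432.HK (FuchsianWith CommonDen)

lemma int_sum {m n : ℕ} (hm : 0 < m) (hn : 0 < n) {b : Fin (n + 1) → ℤ[X]}
    {α : Fin m → AlgebraicClosure ℚ} {lam : Fin m → Fin n → ℚ} {phi : Fin n → ℚ}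
    (hF : FuchsianWith b α lam phi) :
    ∃ z : ℤ, ∑ j, ∑ l, lam j l - ∑ l, shifted m phi l = z := by
  obtain ⟨hb, Q, hF, hE⟩ := hF
  have h := fuchs hn hm hF.inj hF.last hF.deg hE.1 hE.2
  refine ⟨-∑ i, ((cw m n i : ℕ) : ℤ), ?_⟩
  have h1 : ∑ l, shifted m phi l = ∑ l, (phi l + (((n - 1) * (m - 1) : ℕ) : ℚ)) := rfl
  rw [h1, ← h]
  push_cast
  ring

theorem main_two {m d N : ℕ} [NeZero N] (hm : 0 < m) {b : Fin (2 + 1) → ℤ[X]}
    {α : Fin m → AlgebraicClosure ℚ} {lam : Fin m → Fin 2 → ℚ} {phi : Fin 2 → ℚ}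
    (hF : FuchsianWith b α lam phi) (hN : CommonDen lam phi N) {r : Fin (d + 1) → ℤ[X]}
    (hr : Accessory b α r) {δ : (ZMod N)ˣ → ℝ} (hδ : ∀ v, 0 < δ v)
    (hdef : ∀ v : (ZMod N)ˣ, ∃ P : Option (Fin m),
      (((∑ Q, nint (((v : ZMod N).val : ℚ) * expDiff lam phi Q)) / 2 -
        nint (((v : ZMod N).val : ℚ) * expDiff lam phi P) : ℚ) : ℝ) ≤ δ v)
    {η θ : ℝ} (hη : 0 ≤ η)
    (hθ : (1 + η) * ((d : ℝ) + 1) * N.totient < θ * ∑ v : (ZMod N)ˣ, 1 / δ v) :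
    ∃ κ : ℝ, 0 < κ ∧ ∃ C : ℝ, ∀ X : ℝ, 2 ≤ X →
      (Set.ncard {q : ℚ | |(q.num : ℝ)| ≤ X ∧ (q.den : ℝ) ≤ X ^ η ∧
        badSum (fam b r q) (X ^ θ) ≤ κ * Real.log X} : ℝ) ≤ C * X ^ θ := by
  refine main hm (by norm_num) hF hN hr hδ (fun v => ?_) hη hθ
  obtain ⟨P, hP⟩ := hdef v
  refine defect_order_two (int_sum hm (by norm_num) hF) (a := (((v : ZMod N).val : ℕ) : ℤ)) ?_ P ?_
  · rw [Int.cast_natCast, ZMod.natCast_zmod_val]
  · exact_mod_cast hP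

lemma exists_commonDen {m n : ℕ} (lam : Fin m → Fin n → ℚ) (phi : Fin n → ℚ) :
    ∃ N : ℕ, CommonDen lam phi N := by
  classical
  refine ⟨(∏ x : Fin m × Fin n, (lam x.1 x.2).den) * ∏ l, (phi l).den, ?_, ?_, ?_⟩
  · refine Nat.mul_pos (prod_pos fun x _ => Rat.den_pos _) (prod_pos fun x _ => Rat.den_pos _)
  · intro j l
    have h1 : (lam j l).den ∣ (∏ x : Fin m × Fin n, (lam x.1 x.2).den) * ∏ l, (phi l).den :=
      (dvd_prod_of_mem (fun x : Fin m × Fin n => (lam x.1 x.2).den) (mem_univ (j, l))).trans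
        (Dvd.intro _ rfl)
    obtain ⟨c, hc⟩ := h1
    rw [hc]
    refine ⟨c * (lam j l).num, ?_⟩
    have h2 := Rat.mul_den_eq_num (lam j l)
    push_cast
    rw [← h2]
    ring
  · intro l
    have h1 : (phi l).den ∣ (∏ x : Fin m × Fin n, (lam x.1 x.2).den) * ∏ l, (phi l).den :=
      (dvd_prod_of_mem (fun l : Fin n => (phi l).den) (mem_univ l)).trans (Dvd.intro_left _ rfl)
    obtain ⟨c, hc⟩ := h1
    rw [hc]
    refine ⟨c * (phi l).num, ?_⟩
    have h2 := Rat.mul_den_eq_num (phi l)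
    push_cast
    rw [← h2]
    ring

lemma den_dvd_of_int {N : ℕ} {y : ℚ} (h : ∃ z : ℤ, (N : ℚ) * y = z) : y.den ∣ N := by
  obtain ⟨z, hz⟩ := h
  have h1 : (y.den : ℤ) ∣ N * y.num := by
    refine ⟨z, ?_⟩
    have h2 := Rat.mul_den_eq_num y
    have h3 : ((N * y.num : ℤ) : ℚ) = ((y.den * z : ℤ) : ℚ) := by
      push_cast
      rw [← h2, ← hz]
      ring
    exact_mod_cast h3
  have h2 : IsCoprime (y.den : ℤ) y.num := by
    rw [Int.isCoprime_iff_gcd_eq_one]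
    have := y.reduced
    rw [Nat.coprime_comm] at this
    exact this
  have h3 := h2.dvd_of_dvd_mul_right h1
  exact_mod_cast h3

lemma nint_rel {x y : ℚ} (a : ℕ) (h : ∃ z : ℤ, x = y + z ∨ x = -y + z) :
    nint (a * x) = nint (a * y) := by
  obtain ⟨z, h | h⟩ := h
  · have : (a : ℚ) * x = a * y + ((a * z : ℤ) : ℚ) := by rw [h]; push_cast; ring
    rw [this, nint_add_int]
  · have : (a : ℚ) * x = -(a * y) + ((a * z : ℤ) : ℚ) := by rw [h]; push_cast; ring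
    rw [this, nint_add_int, nint_neg]

theorem main_heun {d : ℕ} {b : Fin (2 + 1) → ℤ[X]}
    {α : Fin 3 → AlgebraicClosure ℚ} {lam : Fin 3 → Fin 2 → ℚ} {phi : Fin 2 → ℚ}
    (hF : FuchsianWith b α lam phi) {r : Fin (d + 1) → ℤ[X]}
    (hr : Accessory b α r) (σ : Fin 4 ≃ Option (Fin 3))
    (h1 : ∃ z : ℤ, expDiff lam phi (σ 1) = expDiff lam phi (σ 0) + z ∨
      expDiff lam phi (σ 1) = -expDiff lam phi (σ 0) + z)
    (h2 : ∃ z : ℤ, expDiff lam phi (σ 3) = expDiff lam phi (σ 2) + z ∨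
      expDiff lam phi (σ 3) = -expDiff lam phi (σ 2) + z)
    {η θ : ℝ} (hη : 0 ≤ η)
    (hθ : (1 + η) * ((d : ℝ) + 1) < 2 * θ * (harmonic (((expDiff lam phi (σ 0)).den - 1) / 2) : ℚ)) :
    ∃ κ : ℝ, 0 < κ ∧ ∃ C : ℝ, ∀ X : ℝ, 2 ≤ X →
      (Set.ncard {q : ℚ | |(q.num : ℝ)| ≤ X ∧ (q.den : ℝ) ≤ X ^ η ∧
        badSum (fam b r q) (X ^ θ) ≤ κ * Real.log X} : ℝ) ≤ C * X ^ θ := by
  classical
  obtain ⟨N, hN⟩ := exists_commonDen lam phi
  have : NeZero N := ⟨hN.1.ne'⟩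
  obtain ⟨y, hy⟩ : ∃ y, y = expDiff lam phi (σ 0) := ⟨_, rfl⟩
  rw [← hy] at hθ
  have hpos : 0 < (1 + η) * ((d : ℝ) + 1) := by positivity
  have hden1 : y.den ≠ 1 := by
    intro h
    rw [h] at hθ
    simp at hθ
    linarith
  have hNy : y.den ∣ N := by
    refine den_dvd_of_int ?_
    rw [hy]
    cases σ 0 with
    | none =>
      obtain ⟨z0, h0⟩ := hN.2.2 0
      obtain ⟨z1, h1⟩ := hN.2.2 1
      exact ⟨z1 - z0, by unfold expDiff; push_cast; rw [← h0, ← h1]; ring⟩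
    | some j =>
      obtain ⟨z0, h0⟩ := hN.2.1 j 0
      obtain ⟨z1, h1⟩ := hN.2.1 j 1
      exact ⟨z1 - z0, by unfold expDiff; push_cast; rw [← h0, ← h1]; ring⟩
  have hnint : ∀ v : (ZMod N)ˣ, 0 < nint (((v : ZMod N).val : ℚ) * y) := by
    intro v
    refine nint_pos fun z hz => ?_
    have e1 : y.den ∣ (v : ZMod N).val := den_dvd_of_int ⟨z, hz⟩
    have e2 : (v : ZMod N).val.Coprime N := ZMod.val_coe_unit_coprime v
    have e3 := Nat.Coprime.coprime_dvd_right hNy e2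
    exact hden1 (Nat.Coprime.eq_one_of_dvd (Nat.coprime_comm.1 e3) e1)
  refine main_two (N := N) (by norm_num) hF hN hr
    (δ := fun v => ((nint (((v : ZMod N).val : ℚ) * y) : ℚ) : ℝ))
    (fun v => by exact_mod_cast hnint v) (fun v => ⟨σ 2, ?_⟩) hη ?_
  · have e1 : ∑ Q, nint (((v : ZMod N).val : ℚ) * expDiff lam phi Q) =
        ∑ i : Fin 4, nint (((v : ZMod N).val : ℚ) * expDiff lam phi (σ i)) :=
      (Equiv.sum_comp σ (fun Q => nint (((v : ZMod N).val : ℚ) * expDiff lam phi Q))).symm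
    rw [e1, Fin.sum_univ_four, nint_rel _ h1, nint_rel _ h2, ← hy]
    have e2 : (nint (((v : ZMod N).val : ℚ) * y) + nint (((v : ZMod N).val : ℚ) * y) +
        nint (((v : ZMod N).val : ℚ) * expDiff lam phi (σ 2)) +
        nint (((v : ZMod N).val : ℚ) * expDiff lam phi (σ 2))) / 2 -
        nint (((v : ZMod N).val : ℚ) * expDiff lam phi (σ 2)) =
        nint (((v : ZMod N).val : ℚ) * y) := by ring
    rw [e2]
  · have e1 := sum_units (N := N) hNy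
    have e2 : (((2 * ((N.totient : ℚ) * harmonic ((y.den - 1) / 2))) : ℚ) : ℝ) ≤
        ((∑ v : (ZMod N)ˣ, (nint (((v : ZMod N).val : ℚ) * y))⁻¹ : ℚ) : ℝ) := by
      exact_mod_cast e1
    have e3 : ((∑ v : (ZMod N)ˣ, (nint (((v : ZMod N).val : ℚ) * y))⁻¹ : ℚ) : ℝ) =
        ∑ v : (ZMod N)ˣ, 1 / ((nint (((v : ZMod N).val : ℚ) * y) : ℚ) : ℝ) := by
      push_cast
      exact sum_congr rfl fun v _ => (one_div _).symm
    rw [← e3]
    have hφ : (0 : ℝ) < N.totient := by exact_mod_cast Nat.totient_pos.mpr hN.1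
    have hθ0 : 0 < θ := by
      by_contra h
      push Not at h
      have h5 : (0 : ℝ) ≤ ((harmonic ((y.den - 1) / 2) : ℚ) : ℝ) := by
        have : (0 : ℚ) ≤ harmonic ((y.den - 1) / 2) := by
          rw [harmonic_eq_sum_Icc]
          exact sum_nonneg fun k _ => inv_nonneg.2 (Nat.cast_nonneg k)
        exact_mod_cast this
      have h6 : 2 * θ * ((harmonic ((y.den - 1) / 2) : ℚ) : ℝ) ≤ 0 :=
        mul_nonpos_of_nonpos_of_nonneg (by linarith) h5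
      linarith
    have e4 := mul_le_mul_of_nonneg_left e2 hθ0.le
    have e5 := mul_lt_mul_of_pos_right hθ hφ
    push_cast at e4 ⊢
    calc (1 + η) * ((d : ℝ) + 1) * N.totient
        < 2 * θ * ((harmonic ((y.den - 1) / 2) : ℚ) : ℝ) * N.totient := e5
      _ = θ * (2 * ((N.totient : ℝ) * ((harmonic ((y.den - 1) / 2) : ℚ) : ℝ))) := by ring
      _ ≤ _ := e4

end Pool.Agent.Helper9.PC
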