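import Pool.Graph.R_seed8.W432.HK.Stmt
import Pool.Agent.Helper9.PC.Field
import Pool.Agent.Helper9.PC.Final

set_option autoImplicit false

/-!
The number of the accessory parameters with few bad primes: arbitrary order.
-/

open Polynomial Finset

namespace Pool.Agent.Helper9.PC

open Pool.Agent.W432.PC (T wt lexLE)
open Pool.Agent.W432.WB (FullMod IsFuchs HasExps)
open Pool.Agent.W432.HK (FuchsianWith CommonDen)

/-- The terms `r_1, …, r_(d+1)` of the family `L_q = L_0 + q r_1 + ⋯ + q ^ (d + 1) r_(d+1)` are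
accessory: they do not change the local exponents. In other words, the leading one is not zero, and
`r_t / b_n = R_t / T ^ (n - 1)` with `deg R_t ≤ (n - 1)(m - 1) - 2`, where `T = ∏ (x - α j)`. -/
def Accessory {m n d : ℕ} (b : Fin (n + 1) → ℤ[X]) (α : Fin m → AlgebraicClosure ℚ)
    (r : Fin (d + 1) → ℤ[X]) : Prop :=
  r (Fin.last d) ≠ 0 ∧ ∀ t, ∃ R : (AlgebraicClosure ℚ)[X],
    T α ^ (n - 1) * (r t).map (Int.castRingHom (AlgebraicClosure ℚ)) =
      (b (Fin.last n)).map (Int.castRingHom (AlgebraicClosure ℚ)) * R ∧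
    R.natDegree + 2 ≤ (n - 1) * (m - 1)

open Classical in
/-- The sum of `log p / p` over the primes `p ≤ Y` for which the reduction modulo `p` of
`∑ b k ∂ ^ k` does not have a full basis of rational solutions. -/
noncomputable def badSum {n : ℕ} (b : Fin (n + 1) → ℤ[X]) (Y : ℝ) : ℝ :=
  ∑ p ∈ Icc 1 ⌊Y⌋₊ with p.Prime ∧ ¬ ∃ _ : Fact p.Prime, FullMod b p, Real.log p / p

/-- The local exponents at infinity, shifted to the exponents of the system. -/
def shifted {n : ℕ} (m : ℕ) (phi : Fin n → ℚ) : Fin n → ℚ :=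
  fun l => phi l + (((n - 1) * (m - 1) : ℕ) : ℚ)

/-- There is a Weyl inequality for the exponents, in the class `v` modulo `N`, which fails if
`δ < 0` and otherwise is nearly an equality: its defect is at most `δ`. -/
def DefectLE {m n : ℕ} (lam : Fin m → Fin n → ℚ) (phi : Fin n → ℚ) {N : ℕ} (v : (ZMod N)ˣ)
    (δ : ℝ) : Prop :=
  ∃ a : ℤ, (a : ZMod N) = v ∧ ∃ (i : Fin m → Fin n) (s : Fin n) (q : ℤ),
    CountCond a lam (shifted m phi) i s q ∧
    ((q + wt a (shifted m phi s) - ∑ j, wt a (lam j (i j)) : ℚ) : ℝ) ≤ δ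

theorem main {m n d N : ℕ} [NeZero N] (hm : 0 < m) (hn : 0 < n) {b : Fin (n + 1) → ℤ[X]}
    {α : Fin m → AlgebraicClosure ℚ} {lam : Fin m → Fin n → ℚ} {phi : Fin n → ℚ}
    (hF : FuchsianWith b α lam phi) (hN : CommonDen lam phi N) {r : Fin (d + 1) → ℤ[X]}
    (hr : Accessory b α r) {δ : (ZMod N)ˣ → ℝ} (hδ : ∀ v, 0 < δ v)
    (hdef : ∀ v, DefectLE lam phi v (δ v)) {η θ : ℝ} (hη : 0 ≤ η)
    (hθ : (1 + η) * ((d : ℝ) + 1) * N.totient < θ * ∑ v : (ZMod N)ˣ, 1 / δ v) :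
    ∃ κ : ℝ, 0 < κ ∧ ∃ C : ℝ, ∀ X : ℝ, 2 ≤ X →
      (Set.ncard {q : ℚ | |(q.num : ℝ)| ≤ X ∧ (q.den : ℝ) ≤ X ^ η ∧
        badSum (fam b r q) (X ^ θ) ≤ κ * Real.log X} : ℝ) ≤ C * X ^ θ := by
  classical
  obtain ⟨hb, Q, hF, hE⟩ := hF
  obtain ⟨hr0, hr⟩ := hr
  choose Rr hRr hRdeg using hr
  obtain ⟨A, hA⟩ : ∃ A : ℕ → ℚ → Prop, ∀ p x, A p x ↔ ∃ _ : Fact p.Prime, FullMod (fam b r x) p :=
    ⟨fun p x => ∃ _ : Fact p.Prime, FullMod (fam b r x) p, fun p x => Iff.rfl⟩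
  have := sieve_final (N := N) A d δ hδ ?_ hη hθ
  · obtain ⟨κ, hκ, C, hC⟩ := this
    refine ⟨κ, hκ, C, fun X hX => ?_⟩
    have h := hC X hX
    have e : ∀ (x : ℚ) (Y : ℝ), badSum (fam b r x) Y = badS A x Y := by
      intro x Y
      unfold badS badSum
      refine sum_congr ?_ fun _ _ => rfl
      ext p
      simp only [mem_filter, hA]
    simp only [e]
    exact h
  intro v
  obtain ⟨a, hav, i, s, q, hq, hgap⟩ := hdef v
  obtain ⟨P₀, M, hM, h⟩ := count_field hm hn b hb α Q hF lam phi hE r hr0 Rr hRr hRdeg N hN.1 hN.2.1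
    hN.2.2 a (hδ v).le i s q hq hgap
  refine ⟨P₀, M, hM, fun p hp hpp hpN S hS => ?_⟩
  refine h p hp ?_ ⟨hpp⟩ S fun t ht => ?_
  · rw [← ZMod.intCast_zmod_eq_zero_iff_dvd]
    push_cast
    rw [hav, hpN, Units.val_neg, mul_neg, Units.mul_inv, neg_add_cancel]
  · obtain ⟨x, hx1, hx2, hx3⟩ := hS t ht
    obtain ⟨_, hx4⟩ := (hA p x).1 hx3
    exact ⟨x, hx1, hx2, hx4⟩

end Pool.Agent.Helper9.PC
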