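import Pool.Graph.R_seed8.TH924.PC.Sieve

set_option autoImplicit false

/-!
A larger sieve for rational numbers, with weights for the primes.
-/

open Finset

namespace Pool.Agent.Helper9.PC

/-- the residue of a rational number modulo `p`, if `p` does not divide the denominator -/
def res (p : ℕ) (q : ℚ) : ZMod p := (q.num : ZMod p) * ((q.den : ZMod p))⁻¹

lemma dvd_of_res {p : ℕ} (hp : p.Prime) {q q' : ℚ} (h : ¬ p ∣ q.den) (h' : ¬ p ∣ q'.den)
    (he : res p q = res p q') : (p : ℤ) ∣ q.num * q'.den - q'.num * q.den := by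
  have : Fact p.Prime := ⟨hp⟩
  have h1 : (q.den : ZMod p) ≠ 0 := by rwa [Ne, ZMod.natCast_eq_zero_iff]
  have h2 : (q'.den : ZMod p) ≠ 0 := by rwa [Ne, ZMod.natCast_eq_zero_iff]
  rw [← ZMod.intCast_zmod_eq_zero_iff_dvd]
  push_cast
  unfold res at he
  rw [← div_eq_mul_inv, ← div_eq_mul_inv, div_eq_div_iff h1 h2] at he
  rw [he]
  ring

lemma cross_ne {q q' : ℚ} (h : q ≠ q') : q.num * q'.den - q'.num * q.den ≠ 0 := by
  intro h0
  apply h
  rw [Rat.eq_iff_mul_eq_mul]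
  linarith

open Classical in
/-- the pairs of elements of `S` with the property `G p` which are congruent modulo `p` -/
noncomputable def prs (G : ℕ → ℚ → Prop) (S : Finset ℚ) (p : ℕ) : Finset (ℚ × ℚ) :=
  (S ×ˢ S).filter fun x => (G p x.1 ∧ G p x.2) ∧ res p x.1 = res p x.2

open Classical in
lemma cs_classes (G : ℕ → ℚ → Prop) (S : Finset ℚ) (p : ℕ) :
    ((S.filter (G p)).card : ℝ) ^ 2 ≤
      (((S.filter (G p)).image (res p)).card : ℝ) * (prs G S p).card := by
  set U := S.filter (G p) with hU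
  set I := U.image (res p) with hI
  have h1 : (U.card : ℝ) = ∑ a ∈ I, ((U.filter fun q => res p q = a).card : ℝ) := by
    rw [← Nat.cast_sum]
    congr 1
    exact card_eq_sum_card_fiberwise fun q hq => mem_image_of_mem _ hq
  have h2 : ((prs G S p).card : ℝ) = ∑ a ∈ I, ((U.filter fun q => res p q = a).card : ℝ) ^ 2 := by
    have h3 : (prs G S p).card = ∑ a ∈ I, ((prs G S p).filter fun x => res p x.1 = a).card := by
      refine card_eq_sum_card_fiberwise fun x hx => ?_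
      have hx' : x ∈ prs G S p := hx
      simp only [prs, mem_filter, mem_product] at hx'
      exact mem_image_of_mem _ (mem_filter.2 ⟨hx'.1.1, hx'.2.1.1⟩)
    rw [h3, Nat.cast_sum]
    refine sum_congr rfl fun a _ => ?_
    have h4 : (prs G S p).filter (fun x => res p x.1 = a) =
        (U.filter fun q => res p q = a) ×ˢ (U.filter fun q => res p q = a) := by
      ext x
      simp only [prs, mem_filter, mem_product, hU]
      constructor
      · rintro ⟨⟨⟨h1, h2⟩, ⟨h3, h4⟩, h5⟩, h6⟩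
        exact ⟨⟨⟨h1, h3⟩, h6⟩, ⟨h2, h4⟩, h5 ▸ h6⟩
      · rintro ⟨⟨⟨h1, h3⟩, h6⟩, ⟨h2, h4⟩, h7⟩
        exact ⟨⟨⟨h1, h2⟩, ⟨h3, h4⟩, h6.trans h7.symm⟩, h6⟩
    rw [h4, card_product]
    push_cast
    ring
  rw [h1, h2]
  exact sq_sum_le_card_mul_sum_sq

lemma pairs_le {G : ℕ → ℚ → Prop} {P : Finset ℕ} (hP : ∀ p ∈ P, p.Prime)
    (hG : ∀ p ∈ P, ∀ q, G p q → ¬ p ∣ q.den) {S : Finset ℚ} {X Y : ℝ}
    (hXY : 1 ≤ X * Y) (hX : 0 ≤ X)
    (hS : ∀ q ∈ S, |(q.num : ℝ)| ≤ X ∧ (q.den : ℝ) ≤ Y) :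
    ∑ p ∈ P, Real.log p * (prs G S p).card ≤
      (S.card : ℝ) ^ 2 * Real.log (2 * (X * Y)) + S.card * ∑ p ∈ P, Real.log p := by
  classical
  have h1 : ∀ p ∈ P, Real.log p * (prs G S p).card =
      ∑ x ∈ S ×ˢ S, if (G p x.1 ∧ G p x.2) ∧ res p x.1 = res p x.2 then Real.log p else 0 := by
    intro p _
    rw [prs, card_filter, Nat.cast_sum, mul_sum]
    refine sum_congr rfl fun x _ => ?_
    split_ifs <;> simp
  rw [sum_congr rfl h1, sum_comm]
  have hlog : 0 ≤ Real.log (2 * (X * Y)) := Real.log_nonneg (by linarith)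
  have h2 : ∀ x ∈ S ×ˢ S, (∑ p ∈ P, if (G p x.1 ∧ G p x.2) ∧ res p x.1 = res p x.2 then
      Real.log p else 0) ≤
      Real.log (2 * (X * Y)) + if x.1 = x.2 then ∑ p ∈ P, Real.log p else 0 := by
    intro x hx
    rw [mem_product] at hx
    have hle : ∀ p ∈ P, (if (G p x.1 ∧ G p x.2) ∧ res p x.1 = res p x.2 then Real.log p else 0) ≤
        Real.log p := by
      intro p _
      split_ifs
      · exact le_rfl
      · exact Real.log_natCast_nonneg p
    split_ifs with h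
    · have := sum_le_sum hle
      linarith
    · rw [add_zero, ← sum_filter]
      have hm : (x.1.num * x.2.den - x.2.num * x.1.den).natAbs ≠ 0 := by
        rw [Int.natAbs_ne_zero]
        exact cross_ne h
      have h3 : P.filter (fun p => (G p x.1 ∧ G p x.2) ∧ res p x.1 = res p x.2) ⊆
          P.filter (· ∣ (x.1.num * x.2.den - x.2.num * x.1.den).natAbs) := by
        intro p hp
        rw [mem_filter] at hp ⊢
        refine ⟨hp.1, ?_⟩
        rw [← Int.natCast_dvd]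
        exact dvd_of_res (hP p hp.1) (hG p hp.1 _ hp.2.1.1) (hG p hp.1 _ hp.2.1.2) hp.2.2
      refine (sum_le_sum_of_subset_of_nonneg h3 fun p _ _ => Real.log_natCast_nonneg p).trans ?_
      refine (Pool.Agent.TH924.PC.sum_log_dvd hP hm).trans ?_
      refine Real.log_le_log (by exact_mod_cast Nat.pos_of_ne_zero hm) ?_
      rw [Nat.cast_natAbs, Int.cast_abs]
      push_cast
      obtain ⟨a1, a2⟩ := hS _ hx.1
      obtain ⟨b1, b2⟩ := hS _ hx.2
      have e1 : |(x.1.num : ℝ) * x.2.den - x.2.num * x.1.den| ≤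
          |(x.1.num : ℝ) * x.2.den| + |(x.2.num : ℝ) * x.1.den| := abs_sub _ _
      rw [abs_mul, abs_mul, abs_of_nonneg (Nat.cast_nonneg (α := ℝ) x.2.den),
        abs_of_nonneg (Nat.cast_nonneg (α := ℝ) x.1.den)] at e1
      have e2 : |(x.1.num : ℝ)| * x.2.den ≤ X * Y :=
        mul_le_mul a1 b2 (Nat.cast_nonneg _) hX
      have e3 : |(x.2.num : ℝ)| * x.1.den ≤ X * Y :=
        mul_le_mul b1 a2 (Nat.cast_nonneg _) hX
      linarith
  refine (sum_le_sum h2).trans ?_
  rw [sum_add_distrib, sum_const, card_product, nsmul_eq_mul]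
  have h4 : ∑ x ∈ S ×ˢ S, (if x.1 = x.2 then ∑ p ∈ P, Real.log p else 0) =
      S.card * ∑ p ∈ P, Real.log p := by
    rw [sum_product]
    simp only [sum_ite_eq, sum_ite_mem, inter_self, sum_const, nsmul_eq_mul]
  rw [h4]
  push_cast
  nlinarith

open Classical in
/-- **A larger sieve with individual numbers of classes.** -/
theorem larger {G : ℕ → ℚ → Prop} {P : Finset ℕ} (hP : ∀ p ∈ P, p.Prime)
    (hG : ∀ p ∈ P, ∀ q, G p q → ¬ p ∣ q.den) (B : ℕ → ℝ) (hB : ∀ p ∈ P, 0 < B p)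
    {S : Finset ℚ} (hcl : ∀ p ∈ P, (((S.filter (G p)).image (res p)).card : ℝ) ≤ B p)
    {X Y V : ℝ} (hXY : 1 ≤ X * Y) (hX : 0 ≤ X)
    (hS : ∀ q ∈ S, |(q.num : ℝ)| ≤ X ∧ (q.den : ℝ) ≤ Y) (hV : 0 ≤ V)
    (hSV : ∀ q ∈ S, V ≤ ∑ p ∈ P with G p q, Real.log p / B p) :
    (S.card : ℝ) * (V ^ 2 - (∑ p ∈ P, Real.log p / B p) * Real.log (2 * (X * Y))) ≤
      (∑ p ∈ P, Real.log p / B p) * ∑ p ∈ P, Real.log p := by
  classical
  set W : ℝ := ∑ p ∈ P, Real.log p / B p with hWdef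
  have hw0 : ∀ p ∈ P, 0 ≤ Real.log p / B p := fun p hp =>
    div_nonneg (Real.log_natCast_nonneg p) (hB p hp).le
  have hW0 : 0 ≤ W := sum_nonneg hw0
  rcases Nat.eq_zero_or_pos S.card with h0 | hpos
  · rw [h0]
    have : 0 ≤ ∑ p ∈ P, Real.log p := sum_nonneg fun p hp => Real.log_natCast_nonneg p
    simp only [Nat.cast_zero, zero_mul]
    positivity
  set Sp : ℕ → Finset ℚ := fun p => S.filter (G p) with hSp
  have h1 : (S.card : ℝ) * V ≤ ∑ p ∈ P, Real.log p / B p * (Sp p).card := by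
    calc (S.card : ℝ) * V = ∑ q ∈ S, V := by rw [sum_const, nsmul_eq_mul]
      _ ≤ ∑ q ∈ S, ∑ p ∈ P with G p q, Real.log p / B p := sum_le_sum hSV
      _ = ∑ q ∈ S, ∑ p ∈ P, if G p q then Real.log p / B p else 0 := by
          refine sum_congr rfl fun q _ => ?_
          rw [sum_filter]
      _ = ∑ p ∈ P, ∑ q ∈ S, if G p q then Real.log p / B p else 0 := sum_comm
      _ = ∑ p ∈ P, Real.log p / B p * (Sp p).card := by
          refine sum_congr rfl fun p _ => ?_
          rw [← sum_filter, sum_const, nsmul_eq_mul]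
          ring
  have h2 : (∑ p ∈ P, Real.log p / B p * (Sp p).card) ^ 2 ≤
      W * ∑ p ∈ P, Real.log p / B p * ((Sp p).card : ℝ) ^ 2 := by
    have h := sum_mul_sq_le_sq_mul_sq P (fun p => Real.sqrt (Real.log p / B p))
      (fun p => Real.sqrt (Real.log p / B p) * (Sp p).card)
    have e1 : ∑ p ∈ P, Real.sqrt (Real.log p / B p) * (Real.sqrt (Real.log p / B p) * (Sp p).card) =
        ∑ p ∈ P, Real.log p / B p * (Sp p).card := by
      refine sum_congr rfl fun p hp => ?_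
      rw [← mul_assoc, Real.mul_self_sqrt (hw0 p hp)]
    have e2 : ∑ p ∈ P, Real.sqrt (Real.log p / B p) ^ 2 = W := by
      rw [hWdef]
      refine sum_congr rfl fun p hp => ?_
      rw [Real.sq_sqrt (hw0 p hp)]
    have e3 : ∑ p ∈ P, (Real.sqrt (Real.log p / B p) * (Sp p).card) ^ 2 =
        ∑ p ∈ P, Real.log p / B p * ((Sp p).card : ℝ) ^ 2 := by
      refine sum_congr rfl fun p hp => ?_
      rw [mul_pow, Real.sq_sqrt (hw0 p hp)]
    rw [e1, e2, e3] at h
    exact h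
  have h3 : ∀ p ∈ P, Real.log p / B p * ((Sp p).card : ℝ) ^ 2 ≤ Real.log p * (prs G S p).card := by
    intro p hp
    have hlog : 0 ≤ Real.log (p : ℝ) := Real.log_natCast_nonneg p
    have hcs := cs_classes G S p
    have h4 : ((Sp p).card : ℝ) ^ 2 ≤ B p * (prs G S p).card :=
      hcs.trans (mul_le_mul_of_nonneg_right (hcl p hp) (Nat.cast_nonneg _))
    calc Real.log p / B p * ((Sp p).card : ℝ) ^ 2
        ≤ Real.log p / B p * (B p * (prs G S p).card) :=
          mul_le_mul_of_nonneg_left h4 (hw0 p hp)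
      _ = Real.log p * (prs G S p).card := by
          have := (hB p hp).ne'
          field_simp
  have h4 := pairs_le (G := G) hP hG hXY hX hS
  have h5 : ∑ p ∈ P, Real.log p / B p * ((Sp p).card : ℝ) ^ 2 ≤
      (S.card : ℝ) ^ 2 * Real.log (2 * (X * Y)) + S.card * ∑ p ∈ P, Real.log p :=
    (sum_le_sum h3).trans h4
  have hs0 : (0 : ℝ) < S.card := by exact_mod_cast hpos
  have h6 : ((S.card : ℝ) * V) ^ 2 ≤
      W * ((S.card : ℝ) ^ 2 * Real.log (2 * (X * Y)) + S.card * ∑ p ∈ P, Real.log p) := by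
    have h7 : ((S.card : ℝ) * V) ^ 2 ≤ (∑ p ∈ P, Real.log p / B p * (Sp p).card) ^ 2 := by
      have : 0 ≤ (S.card : ℝ) * V := by positivity
      exact pow_le_pow_left₀ this h1 2
    exact (h7.trans h2).trans (mul_le_mul_of_nonneg_left h5 hW0)
  have h8 : (S.card : ℝ) * ((S.card : ℝ) * (V ^ 2 - W * Real.log (2 * (X * Y)))) ≤
      S.card * (W * ∑ p ∈ P, Real.log p) := by nlinarith
  exact le_of_mul_le_mul_left h8 hs0

end Pool.Agent.Helper9.PC
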