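import Pool.Agent.Helper9.PC.Weyl
import Pool.Agent.Helper9.PC.Chain
import Pool.Agent.Helper9.PC.Sieve

set_option autoImplicit false

/-!
The number of the members of a family of operators, modulo a prime `p`, which have a full basis of
rational solutions.
-/

open Polynomial Finset Module

namespace Pool.Agent.Helper9.PC

open Pool.Agent.W432.PC (T Tc T_eq T_monic T_ne T_natDegree Tc_monic Tc_eval_ne Tc_eval_eq_zero
  T_eval_ne T_map Tc_map wt lexLE exists_rep natDegree_prod_pow exists_closed_point)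
open Pool.Agent.W432.WB (geo redExp_loc redExp_inf FullMod Full WDeg Sol sh RedExp resMat infMat
  indLoc indInf cw WDeg_comp resMat_comp infMat_comp IsFuchs HasExps sh_apply exists_ring exists_lift
  fuchs indLoc_map indInf_map comp_map)

universe u

/-- The coefficients of the operator `v ^ d L_(u / v)`, where
`L_q = ∑ b k ∂ ^ k + q r_1 + ⋯ + q ^ d r_d` and `q = u / v` in lowest terms. -/
noncomputable def fam {n d : ℕ} (b : Fin (n + 1) → ℤ[X]) (r : Fin d → ℤ[X]) (q : ℚ) :
    Fin (n + 1) → ℤ[X] :=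
  fun k => C ((q.den : ℤ) ^ d) * b k +
    if k = 0 then ∑ t : Fin d, C (q.num ^ ((t : ℕ) + 1) * (q.den : ℤ) ^ (d - 1 - t)) * r t else 0

lemma T_eval_self {k : Type*} [Field k] {m : ℕ} (α : Fin m → k) (j : Fin m) :
    (T α).eval (α j) = 0 := by
  rw [T_eq (α := α) j]
  simp

section K

variable {k : Type*} [Field k] {m n d : ℕ} {α : Fin m → k} {Q : Fin (n + 1) → k[X]}
  {R : Fin d → k[X]}

lemma member_eval (c : k) (j : Fin m) (i : Fin (n + 1)) :
    (member α Q R c i).eval (α j) = (Q i).eval (α j) := by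
  unfold member
  rw [eval_add]
  split_ifs
  · rw [eval_finsetSum]
    rw [Finset.sum_eq_zero, add_zero]
    intro t _
    rw [eval_mul, eval_mul, T_eval_self, zero_mul, mul_zero]
  · simp

lemma member_extra_deg (hm : 0 < m) (hn : 0 < n) (hR : ∀ t, (R t).natDegree + 2 ≤ (n - 1) * (m - 1))
    (c : k) : (∑ t : Fin d, C (c ^ ((t : ℕ) + 1)) * (T α * R t)).natDegree < n * (m - 1) ∨
      ∑ t : Fin d, C (c ^ ((t : ℕ) + 1)) * (T α * R t) = 0 := by
  have h0 : n * (m - 1) = (n - 1) * (m - 1) + (m - 1) := by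
    obtain ⟨n', rfl⟩ : ∃ n', n = n' + 1 := ⟨n - 1, by omega⟩
    rw [Nat.add_sub_cancel, add_mul, one_mul]
  rcases Nat.eq_zero_or_pos d with hd | hd
  · subst hd
    right
    simp
  left
  have h1 : (∑ t : Fin d, C (c ^ ((t : ℕ) + 1)) * (T α * R t)).natDegree ≤ n * (m - 1) - 1 := by
    refine natDegree_sum_le_of_forall_le _ _ fun t _ => ?_
    refine (natDegree_C_mul_le _ _).trans (natDegree_mul_le.trans ?_)
    rw [T_natDegree]
    have := hR t
    omega
  have := hR ⟨0, hd⟩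
  omega

lemma member_coeff (hm : 0 < m) (hn : 0 < n) (hR : ∀ t, (R t).natDegree + 2 ≤ (n - 1) * (m - 1))
    (c : k) (i : Fin (n + 1)) :
    (member α Q R c i).coeff ((n - i) * (m - 1)) = (Q i).coeff ((n - i) * (m - 1)) := by
  unfold member
  rw [coeff_add]
  split_ifs with h
  · subst h
    rw [Fin.val_zero, Nat.sub_zero]
    rcases member_extra_deg (α := α) hm hn hR c with h | h
    · rw [coeff_eq_zero_of_natDegree_lt h, add_zero]
    · rw [h, coeff_zero, add_zero]
  · simp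

lemma member_deg (hm : 0 < m) (hn : 0 < n) (hR : ∀ t, (R t).natDegree + 2 ≤ (n - 1) * (m - 1))
    (hQ : ∀ i, (Q i).natDegree ≤ (n - i) * (m - 1)) (c : k) (i : Fin (n + 1)) :
    (member α Q R c i).natDegree ≤ (n - i) * (m - 1) := by
  unfold member
  split_ifs with h
  · subst h
    refine (natDegree_add_le _ _).trans (max_le (hQ 0) ?_)
    rw [Fin.val_zero, Nat.sub_zero]
    rcases member_extra_deg (α := α) hm hn hR c with h | h
    · exact h.le
    · rw [h]; simp
  · rw [add_zero]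
    exact hQ i

lemma member_last (hn : 0 < n) (c : k) : member α Q R c (Fin.last n) = Q (Fin.last n) := by
  unfold member
  rw [if_neg, add_zero]
  intro h
  have := congrArg Fin.val h
  simp at this
  omega

lemma resMat_member (hα : Function.Injective α) (c : k) (j : Fin m) :
    resMat α (Pool.Agent.W432.WB.comp α (member α Q R c)) j =
      resMat α (Pool.Agent.W432.WB.comp α Q) j := by
  rw [resMat_comp hα, resMat_comp hα]
  congr 1
  funext l
  rw [member_eval]

lemma infMat_member (hm : 0 < m) (hn : 0 < n)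
    (hR : ∀ t, (R t).natDegree + 2 ≤ (n - 1) * (m - 1)) (c : k) :
    infMat m (Pool.Agent.W432.WB.comp α (member α Q R c)) (cw m n) =
      infMat m (Pool.Agent.W432.WB.comp α Q) (cw m n) := by
  rw [infMat_comp hm hn, infMat_comp hm hn]
  congr 1
  funext l
  have := member_coeff (α := α) (Q := Q) hm hn hR c l.castSucc
  simpa using this

/-- The relation between the family over `ℤ` and its members over `k`. -/
lemma fam_member {p : ℕ} [CharP k p] (hn : 0 < n) {b : Fin (n + 1) → ℤ[X]} {r : Fin d → ℤ[X]}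
    (hbQ : ∀ i : Fin (n + 1), T α ^ (n - (i : ℕ)) * (b i).map (Int.castRingHom k) =
      (b (Fin.last n)).map (Int.castRingHom k) * Q i)
    (hR : ∀ t, T α ^ (n - 1) * (r t).map (Int.castRingHom k) =
      (b (Fin.last n)).map (Int.castRingHom k) * R t)
    (x : ℚ) (hx : (x.den : k) ≠ 0) (i : Fin (n + 1)) :
    T α ^ (n - (i : ℕ)) * (fam b r x i).map (Int.castRingHom k) =
      (fam b r x (Fin.last n)).map (Int.castRingHom k) *
        member α Q R ((x.num : k) * (x.den : k)⁻¹) i := by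
  have hlast : fam b r x (Fin.last n) = C ((x.den : ℤ) ^ d) * b (Fin.last n) := by
    unfold fam
    rw [if_neg, add_zero]
    intro h
    have := congrArg Fin.val h
    simp at this
    omega
  have hC : ∀ z : ℤ, (C z : ℤ[X]).map (Int.castRingHom k) = C (z : k) := fun z => by
    rw [map_C]; rfl
  rw [hlast]
  unfold fam member
  rw [Polynomial.map_add, Polynomial.map_mul, Polynomial.map_mul, hC, mul_add, mul_add]
  congr 1
  · linear_combination (C ((((x.den : ℤ) ^ d : ℤ)) : k)) * hbQ i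
  · split_ifs with h
    · subst h
      rw [Polynomial.map_sum, mul_sum, mul_sum]
      refine sum_congr rfl fun t _ => ?_
      rw [Polynomial.map_mul, hC]
      have h1 : T α ^ (n - ((0 : Fin (n + 1)) : ℕ)) = T α * T α ^ (n - 1) := by
        rw [Fin.val_zero, Nat.sub_zero, ← pow_succ']
        congr 1
        omega
      have h2 : (x.den : k) ^ d * ((x.num : k) * (x.den : k)⁻¹) ^ ((t : ℕ) + 1) =
          (x.num : k) ^ ((t : ℕ) + 1) * (x.den : k) ^ (d - 1 - (t : ℕ)) := by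
        have ht := t.2
        have h3 : (x.den : k) ^ d = (x.den : k) ^ (d - 1 - (t : ℕ)) * (x.den : k) ^ ((t : ℕ) + 1) := by
          rw [← pow_add]
          congr 1
          omega
        rw [h3, mul_pow, inv_pow]
        field_simp
      have h4 : (C ((x.den : k) ^ d) : k[X]) * C (((x.num : k) * (x.den : k)⁻¹) ^ ((t : ℕ) + 1)) =
          C ((x.num : k) ^ ((t : ℕ) + 1) * (x.den : k) ^ (d - 1 - (t : ℕ))) := by
        rw [← C_mul, h2]
      have h5 : (((x.num ^ ((t : ℕ) + 1) * (x.den : ℤ) ^ (d - 1 - (t : ℕ)) : ℤ)) : k) =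
          (x.num : k) ^ ((t : ℕ) + 1) * (x.den : k) ^ (d - 1 - (t : ℕ)) := by push_cast; rfl
      have h6 : (((x.den : ℤ) ^ d : ℤ) : k) = (x.den : k) ^ d := by push_cast; rfl
      rw [h1, h5, h6]
      calc T α * T α ^ (n - 1) * (C ((x.num : k) ^ ((t : ℕ) + 1) * (x.den : k) ^ (d - 1 - (t : ℕ))) *
            (r t).map (Int.castRingHom k))
          = C ((x.num : k) ^ ((t : ℕ) + 1) * (x.den : k) ^ (d - 1 - (t : ℕ))) * T α *
            (T α ^ (n - 1) * (r t).map (Int.castRingHom k)) := by ring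
        _ = _ := by
            rw [hR t, ← h4]
            ring
    · simp

end K

section main

variable {R : Type u} [CommRing R] {m n d : ℕ}

lemma map_ne_of_lt {k : Type*} [Field k] {p : ℕ} [CharP k p] {f : ℤ[X]} (hf : f ≠ 0)
    (hp : f.leadingCoeff.natAbs < p) : f.map (Int.castRingHom k) ≠ 0 := by
  intro h0
  have h2 := congrArg (fun q => q.coeff f.natDegree) h0
  simp only [coeff_map, coeff_zero, eq_intCast] at h2
  have h3 := (CharP.intCast_eq_zero_iff k p _).mp h2
  have h4 := Int.natAbs_dvd_natAbs.mpr h3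
  rw [Int.natAbs_natCast] at h4
  have h5 := Nat.le_of_dvd (Int.natAbs_pos.mpr (by
    rw [coeff_natDegree]; exact leadingCoeff_ne_zero.mpr hf)) h4
  rw [coeff_natDegree] at h5
  omega

theorem count_ring [IsDomain R] [CharZero R] [Algebra.FiniteType ℤ R] (hm : 0 < m) (hn : 0 < n)
    (b : Fin (n + 1) → ℤ[X]) (hb : b (Fin.last n) ≠ 0) (α : Fin m → R)
    (hα : ∀ i j, i ≠ j → IsUnit (α i - α j)) (Q : Fin (n + 1) → R[X])
    (hQ : Q (Fin.last n) = 1) (hdeg : ∀ k, (Q k).natDegree ≤ (n - k) * (m - 1))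
    (hbQ : ∀ k : Fin (n + 1), T α ^ (n - (k : ℕ)) * (b k).map (Int.castRingHom R) =
      (b (Fin.last n)).map (Int.castRingHom R) * Q k)
    (r : Fin (d + 1) → ℤ[X]) (hr : r (Fin.last d) ≠ 0) (Rr : Fin (d + 1) → R[X])
    (hRr : ∀ t, T α ^ (n - 1) * (r t).map (Int.castRingHom R) =
      (b (Fin.last n)).map (Int.castRingHom R) * Rr t)
    (hRdeg : ∀ t, (Rr t).natDegree + 2 ≤ (n - 1) * (m - 1))
    (lam : Fin m → Fin n → ℚ) (phi : Fin n → ℚ)
    (htr : ∑ j, ∑ l, lam j l + ∑ i, ((cw m n i : ℕ) : ℚ) =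
      ∑ l, (phi l + (((n - 1) * (m - 1) : ℕ) : ℚ)))
    (N : ℕ) (hN : 0 < N) (mu : Fin m → Fin n → ℤ) (mu' : Fin n → ℤ)
    (hmu : ∀ j l, (N : ℚ) * lam j l = mu j l) (hmu' : ∀ l, (N : ℚ) * phi l = mu' l)
    (hloc : ∀ j, C ((N : R) ^ n) * indLoc α Q j = C ((derivative (T α)).eval (α j) ^ n) *
      ∏ l, (C (N : R) * X - C ((mu j l : ℤ) : R)))
    (hinf : C ((N : R) ^ n) * indInf m Q = ∏ l, (C (N : R) * X - C ((mu' l : ℤ) : R)))
    (a : ℤ) {δ : ℝ} (hδ : 0 ≤ δ) (i : Fin m → Fin n) (s : Fin n) (q : ℤ)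
    (hq : CountCond a lam (fun l => phi l + (((n - 1) * (m - 1) : ℕ) : ℚ)) i s q)
    (hgap : ((q + wt a (phi s + (((n - 1) * (m - 1) : ℕ) : ℚ)) - ∑ j, wt a (lam j (i j)) : ℚ) : ℝ) ≤ δ) :
    ∃ (P₀ : ℕ) (M : ℝ), 0 ≤ M ∧ ∀ p : ℕ, P₀ < p → (N : ℤ) ∣ a * p + 1 → ∀ hp : Fact p.Prime,
      ∀ S : Finset (ZMod p), (∀ t ∈ S, ∃ x : ℚ, ¬ p ∣ x.den ∧ res p x = t ∧ FullMod (fam b r x) p) →
        (S.card : ℝ) ≤ ((d : ℝ) + 1) * (δ * p + M) := by
  classical
  set u₀ : ℕ := (n - 1) * (m - 1) with hu₀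
  set psi : Fin n → ℚ := fun l => phi l + (u₀ : ℚ) with hpsi
  set mu2 : Fin n → ℤ := fun l => mu' l + N * (u₀ : ℕ) with hmu2
  have hmu2' : ∀ l, (N : ℚ) * psi l = mu2 l := by
    intro l
    simp only [hpsi, hmu2]
    push_cast
    rw [mul_add, hmu' l]
  let M : ℤ := ∑ j, ∑ l, |mu j l| + ∑ l, |mu2 l|
  have hM : ∀ j l, |mu j l| ≤ M := by
    intro j l
    have h1 : |mu j l| ≤ ∑ l, |mu j l| :=
      Finset.single_le_sum (f := fun l => |mu j l|) (fun _ _ => abs_nonneg _) (Finset.mem_univ l)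
    have h2 : ∑ l, |mu j l| ≤ ∑ j, ∑ l, |mu j l| :=
      Finset.single_le_sum (f := fun j => ∑ l, |mu j l|)
        (fun _ _ => Finset.sum_nonneg fun _ _ => abs_nonneg _) (Finset.mem_univ j)
    have h3 : 0 ≤ ∑ l, |mu2 l| := Finset.sum_nonneg fun _ _ => abs_nonneg _
    simp only [M]; linarith
  have hM' : ∀ l, |mu2 l| ≤ M := by
    intro l
    have h1 : |mu2 l| ≤ ∑ l, |mu2 l| :=
      Finset.single_le_sum (f := fun l => |mu2 l|) (fun _ _ => abs_nonneg _) (Finset.mem_univ l)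
    have h3 : 0 ≤ ∑ j, ∑ l, |mu j l| :=
      Finset.sum_nonneg fun _ _ => Finset.sum_nonneg fun _ _ => abs_nonneg _
    simp only [M]; linarith
  obtain ⟨P₁, hP₁⟩ := exists_closed_point R (one_ne_zero (α := R))
  obtain ⟨M₁, hM₁⟩ : ∃ M₁ : ℝ, M₁ = |((psi s : ℚ) : ℝ)| + |((∑ j, lam j (i j) : ℚ) : ℝ)| + 1 :=
    ⟨_, rfl⟩
  refine ⟨max (max (2 * M).toNat (b (Fin.last n)).leadingCoeff.natAbs)
      (max P₁ (r (Fin.last d)).leadingCoeff.natAbs), M₁, by rw [hM₁]; positivity, ?_⟩
  intro p hpP hap hp S hS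
  simp only [max_lt_iff] at hpP
  obtain ⟨⟨hp1, hp2⟩, hp3, hp4⟩ := hpP
  rcases S.eq_empty_or_nonempty with h0 | ⟨t₀, ht₀⟩
  · subst h0
    have : 0 ≤ δ * p := mul_nonneg hδ (Nat.cast_nonneg p)
    have : 0 ≤ M₁ := by rw [hM₁]; positivity
    simp only [card_empty, Nat.cast_zero]
    positivity
  obtain ⟨𝔪, h𝔪, hpm, -⟩ := hP₁ p hp.out hp3
  obtain ⟨K, iF, iA, iC, φ, hφ⟩ := geo hp.out hpm
  have hinj : Function.Injective fun j => φ (α j) := by
    intro i j hij
    by_contra hne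
    have h2 := (hα i j hne).map φ
    simp only at hij
    rw [map_sub, hij, sub_self] at h2
    exact not_isUnit_zero h2
  have hcast : φ.comp (Int.castRingHom R) = Int.castRingHom K := RingHom.ext_int _ _
  have hbK : (b (Fin.last n)).map (Int.castRingHom K) ≠ 0 := map_ne_of_lt hb hp2
  have hrK : (r (Fin.last d)).map (Int.castRingHom K) ≠ 0 := map_ne_of_lt hr hp4
  have hdegK : ∀ k, ((Q k).map φ).natDegree ≤ (n - k) * (m - 1) := fun k =>
    natDegree_map_le.trans (hdeg k)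
  have hRdegK : ∀ t, ((Rr t).map φ).natDegree + 2 ≤ (n - 1) * (m - 1) := fun t =>
    (Nat.add_le_add_right natDegree_map_le 2).trans (hRdeg t)
  have hbQK : ∀ k : Fin (n + 1), T (fun j => φ (α j)) ^ (n - (k : ℕ)) *
      (b k).map (Int.castRingHom K) = (b (Fin.last n)).map (Int.castRingHom K) * (Q k).map φ := by
    intro k
    have h2 := congrArg (Polynomial.map φ) (hbQ k)
    rw [Polynomial.map_mul, Polynomial.map_mul, Polynomial.map_pow, T_map, Polynomial.map_map,
      Polynomial.map_map, hcast] at h2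
    exact h2
  have hRrK : ∀ t, T (fun j => φ (α j)) ^ (n - 1) *
      (r t).map (Int.castRingHom K) = (b (Fin.last n)).map (Int.castRingHom K) * (Rr t).map φ := by
    intro t
    have h2 := congrArg (Polynomial.map φ) (hRr t)
    rw [Polynomial.map_mul, Polynomial.map_mul, Polynomial.map_pow, T_map, Polynomial.map_map,
      Polynomial.map_map, hcast] at h2
    exact h2
  have hRlast : (Rr (Fin.last d)).map φ ≠ 0 := by
    intro h0
    have h1 := hRrK (Fin.last d)
    rw [h0, mul_zero] at h1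
    exact (mul_ne_zero (pow_ne_zero _ T_ne) hrK) h1
  set αK : Fin m → K := fun j => φ (α j) with hαK
  set QK : Fin (n + 1) → K[X] := fun k => (Q k).map φ with hQK
  set RK : Fin (d + 1) → K[X] := fun t => (Rr t).map φ with hRK
  let κ : ZMod p →+* K := ZMod.castHom (dvd_refl p) K
  have hκ : Function.Injective κ := κ.injective
  -- the solutions
  have hsol : ∀ t ∈ S, ∃ (hh : Fin m → ℕ) (D : ℤ) (W : Fin n → K[X]),
      (∀ j, (hh j : ℚ) = p * wt a (lam j (i j)) + lam j (i j)) ∧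
      ((D : ℚ) = p * q + (p * wt a (psi s) + psi s)) ∧ W ≠ 0 ∧
      Sol αK (Pool.Agent.W432.WB.comp αK (member αK QK RK (κ t))) W ∧
      (∀ i, ((sh (cw m n) W i).natDegree : ℤ) ≤ D) ∧
      ∀ i, ∏ j, (X - C (αK j)) ^ hh j ∣ W i := by
    intro t ht
    obtain ⟨x, hx1, hx2, hx3⟩ := hS t ht
    have hden : (x.den : K) ≠ 0 := by
      rw [Ne, CharP.cast_eq_zero_iff K p]
      exact hx1
    have hκt : κ t = (x.num : K) * (x.den : K)⁻¹ := by
      rw [← hx2, res, map_mul, map_intCast]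
      congr 1
      have : ∀ y : ZMod p, κ y⁻¹ = (κ y)⁻¹ := fun y => map_inv₀ κ y
      rw [this, map_natCast]
    have hfull : Full αK (Pool.Agent.W432.WB.comp αK (member αK QK RK (κ t))) := by
      refine hx3.full ?_ (fun k => ?_) ?_
      · rw [member_last hn]
        simp only [hQK, hQ, Polynomial.map_one]
      · rw [hκt]
        exact fam_member (p := p) hn hbQK hRrK x hden k
      · have hlast : fam b r x (Fin.last n) = C ((x.den : ℤ) ^ (d + 1)) * b (Fin.last n) := by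
          unfold fam
          rw [if_neg, add_zero]
          intro h
          have := congrArg Fin.val h
          simp at this
          omega
        rw [hlast, Polynomial.map_mul, map_C]
        refine mul_ne_zero ?_ hbK
        rw [C_ne_zero, map_pow]
        simpa using pow_ne_zero (d + 1) hden
    exact weyl_pt hinj (WDeg_comp hm _ (member_deg hm hn hRdegK hdegK _)) hfull hN hap hmu hmu2'
      (fun j => by
        rw [resMat_member hinj]
        exact redExp_loc φ hinj hQ (hloc j))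
      (by
        rw [infMat_member hm hn hRdegK]
        exact redExp_inf φ hm hn hQ hinf) htr hM hM' (by omega) i s q hq
  obtain ⟨hh, D, -, hhh, hD, -⟩ := hsol t₀ ht₀
  obtain ⟨P, hP⟩ : ∃ P : K[X], P = ∏ j, (X - C (αK j)) ^ hh j := ⟨_, rfl⟩
  have hPd : P.natDegree = ∑ j, hh j := by
    rw [hP]
    exact natDegree_prod_pow (α := αK) hh
  set kk : ℕ := (D - u₀ - ∑ j, (hh j : ℤ) + 1).toNat with hkk
  have hcnt : (S.image κ).card ≤ (d + 1) * finrank K (mulSpace P kk) := by
    refine count_members hn (α := αK) (Q := QK) (R := RK) hRlast (mulSpace P kk) (S.image κ) ?_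
    intro c hc
    obtain ⟨t, ht, rfl⟩ := mem_image.1 hc
    obtain ⟨hh', D', W, k1, k2, k3, k4, k5, k6⟩ := hsol t ht
    have e1 : hh' = hh := by
      funext j
      have : (hh' j : ℚ) = hh j := by rw [k1, hhh]
      exact_mod_cast this
    have e2 : D' = D := by
      have : (D' : ℚ) = D := by rw [k2, hD]
      exact_mod_cast this
    subst e1 e2
    have hW0 : W ⟨0, hn⟩ ≠ 0 := fun h0 => k3 (k4.zero_coord hn h0)
    refine ⟨W, k4, hW0, mem_mulSpace hW0 (by rw [hP]; exact k6 _) ?_⟩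
    have h5 := k5 ⟨0, hn⟩
    rw [sh_apply, natDegree_mul (pow_ne_zero _ X_ne_zero) hW0, natDegree_X_pow] at h5
    have h6 : cw m n ⟨0, hn⟩ = u₀ := by simp [cw, hu₀]
    rw [h6] at h5
    push_cast at h5
    rw [hPd]
    have h7 : (D' - u₀ - ∑ j, (hh' j : ℤ) + 1) ≤ (kk : ℤ) := Int.self_le_toNat _
    push_cast
    omega
  rw [card_image_of_injective _ hκ] at hcnt
  have hfr := finrank_mulSpace P kk
  have h1 : S.card ≤ (d + 1) * kk := hcnt.trans (Nat.mul_le_mul_left _ hfr)
  have h2 : (kk : ℝ) ≤ δ * p + M₁ := by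
    have h3 : ((D - u₀ - ∑ j, (hh j : ℤ) + 1 : ℤ) : ℝ) ≤ δ * p + M₁ := by
      have h4 : ((D - ∑ j, (hh j : ℤ) : ℤ) : ℚ) =
          p * (q + wt a (psi s) - ∑ j, wt a (lam j (i j))) + psi s - ∑ j, lam j (i j) := by
        push_cast
        rw [hD]
        simp only [hhh, sum_add_distrib, ← mul_sum]
        ring
      have h5 : ((D - ∑ j, (hh j : ℤ) : ℤ) : ℝ) =
          p * ((q + wt a (psi s) - ∑ j, wt a (lam j (i j)) : ℚ) : ℝ) + ((psi s : ℚ) : ℝ) -
            ((∑ j, lam j (i j) : ℚ) : ℝ) := by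
        have := congrArg (fun x : ℚ => (x : ℝ)) h4
        push_cast at this ⊢
        exact this
      have h6 := mul_le_mul_of_nonneg_left hgap (Nat.cast_nonneg (α := ℝ) p)
      have h7 := le_abs_self ((psi s : ℚ) : ℝ)
      have h8 := neg_abs_le ((∑ j, lam j (i j) : ℚ) : ℝ)
      have h9 : (0 : ℝ) ≤ u₀ := Nat.cast_nonneg _
      have h10 : ((D - u₀ - ∑ j, (hh j : ℤ) + 1 : ℤ) : ℝ) =
          ((D - ∑ j, (hh j : ℤ) : ℤ) : ℝ) - u₀ + 1 := by
        push_cast
        ring
      rw [h10, h5, hM₁]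
      linarith
    have h11 : (kk : ℝ) = ((kk : ℤ) : ℝ) := by push_cast; rfl
    rw [h11, hkk, Int.toNat_eq_max, Int.cast_max]
    refine max_le h3 ?_
    have : 0 ≤ δ * p := mul_nonneg hδ (Nat.cast_nonneg p)
    have : 0 ≤ M₁ := by rw [hM₁]; positivity
    push_cast
    linarith
  calc (S.card : ℝ) ≤ (((d + 1) * kk : ℕ) : ℝ) := by exact_mod_cast h1
    _ = ((d : ℝ) + 1) * kk := by push_cast; ring
    _ ≤ ((d : ℝ) + 1) * (δ * p + M₁) := mul_le_mul_of_nonneg_left h2 (by positivity)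

end main

end Pool.Agent.Helper9.PC
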