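import Pool.Agent.Helper9.PC.Main

set_option autoImplicit false

/-!
The defects of the Weyl inequalities in order two.
-/

open Polynomial Finset

namespace Pool.Agent.Helper9.PC

open Pool.Agent.W432.PC (T wt lexLE)
open Pool.Agent.W432.WB (FullMod IsFuchs HasExps fuchs)
open Pool.Agent.W432.HK (FuchsianWith CommonDen)

/-- The distance to the nearest integer. -/
def nint (x : ℚ) : ℚ := |x - round x|

lemma nint_eq (x : ℚ) : nint x = min (Int.fract x) (1 - Int.fract x) := abs_sub_round_eq_min x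

lemma nint_nonneg (x : ℚ) : 0 ≤ nint x := abs_nonneg _

lemma nint_le_half (x : ℚ) : nint x ≤ 1 / 2 := abs_sub_round x

lemma nint_add_int (x : ℚ) (z : ℤ) : nint (x + z) = nint x := by
  rw [nint_eq, nint_eq, Int.fract_add_intCast]

lemma nint_neg (x : ℚ) : nint (-x) = nint x := by
  rw [nint_eq, nint_eq]
  by_cases h : Int.fract x = 0
  · have h1 : Int.fract (-x) = 0 := Int.fract_neg_eq_zero.2 h
    rw [h, h1]
  · rw [Int.fract_neg h, min_comm, sub_sub_cancel]

lemma nint_of_mem {x : ℚ} (h0 : 0 ≤ x) (h1 : x ≤ 1) : nint x = min x (1 - x) := by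
  rw [nint_eq]
  rcases h1.lt_or_eq with h | h
  · rw [Int.fract_eq_self.2 ⟨h0, h⟩]
  · subst h
    simp

lemma nint_pos {x : ℚ} (h : ∀ z : ℤ, x ≠ z) : 0 < nint x := by
  refine lt_of_le_of_ne (nint_nonneg x) fun h0 => h (round x) ?_
  have h1 : x - round x = 0 := abs_eq_zero.1 h0.symm
  linarith

/-- The modulus of `x`, if `k = 0`, and `1 - x` otherwise. -/
def fk (k : ℕ) (u : ℚ) : ℚ := if k = 0 then u else 1 - u

lemma fk_eq {k : ℕ} (hk : k ≤ 1) (u : ℚ) : fk k u = k - (2 * k - 1) * u := by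
  interval_cases k
  · simp [fk]
  · simp [fk]; ring

lemma exists_fk {u : ℚ} (h0 : 0 ≤ u) (h1 : u ≤ 1) :
    ∃ k : ℕ, k ≤ 1 ∧ fk k u = nint u ∧ fk (1 - k) u = 1 - nint u := by
  rw [nint_of_mem h0 h1]
  rcases le_total u (1 - u) with h | h
  · refine ⟨0, by norm_num, ?_, ?_⟩
    · rw [min_eq_left h]; simp [fk]
    · rw [min_eq_left h]; simp [fk]
  · refine ⟨1, le_rfl, ?_, ?_⟩
    · rw [min_eq_right h]; simp [fk]
    · rw [min_eq_right h]; simp [fk]

lemma lexLE_refl (a : ℤ) (x : ℚ) : lexLE a x x := Or.inr ⟨rfl, le_rfl⟩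

lemma lexLE_total (a : ℤ) (x y : ℚ) : lexLE a x y ∨ lexLE a y x := by
  unfold lexLE
  rcases lt_trichotomy (wt a x) (wt a y) with h | h | h
  · exact Or.inl (Or.inl h)
  · rcases le_total x y with h' | h'
    · exact Or.inl (Or.inr ⟨h, h'⟩)
    · exact Or.inr (Or.inr ⟨h.symm, h'⟩)
  · exact Or.inr (Or.inl h)

lemma lexLE_wt {a : ℤ} {x y : ℚ} (h : lexLE a x y) : wt a x ≤ wt a y := by
  rcases h with h | h
  · exact h.le
  · exact h.1.le

open Classical in
lemma pick_aux (a : ℤ) (x : Fin 2 → ℚ) (lo hi : Fin 2) (hall : ∀ l, l = lo ∨ l = hi)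
    (hlex : lexLE a (x lo) (x hi)) {k : ℕ} (hk : k ≤ 1) :
    ∃ l : Fin 2, (univ.filter fun l' => ¬ lexLE a (x l) (x l')).card ≤ k ∧
      k + 1 ≤ (univ.filter fun l' => lexLE a (x l') (x l)).card ∧
      2 * wt a (x l) = (wt a (x lo) + wt a (x hi)) + (2 * k - 1) * (wt a (x hi) - wt a (x lo)) := by
  interval_cases k
  · refine ⟨lo, ?_, ?_, ?_⟩
    · rw [Nat.le_zero, card_eq_zero, filter_eq_empty_iff]
      intro l _ hl
      rcases hall l with h | h
      · rw [h] at hl; exact hl (lexLE_refl _ _)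
      · rw [h] at hl; exact hl hlex
    · have : (univ.filter fun l' => lexLE a (x l') (x lo)).Nonempty :=
        ⟨lo, mem_filter.2 ⟨mem_univ _, lexLE_refl _ _⟩⟩
      have := this.card_pos
      omega
    · push_cast; ring
  · refine ⟨hi, ?_, ?_, ?_⟩
    · have h1 : (univ.filter fun l' => ¬ lexLE a (x hi) (x l')) ⊆ univ.erase hi := by
        intro l hl
        rw [mem_erase]
        refine ⟨fun h => (mem_filter.1 hl).2 ?_, mem_univ _⟩
        rw [h]
        exact lexLE_refl _ _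
      have h2 := card_le_card h1
      rw [card_erase_of_mem (mem_univ _), card_univ, Fintype.card_fin] at h2
      exact h2
    · have h1 : (univ.filter fun l' => lexLE a (x l') (x hi)) = univ := by
        rw [filter_eq_self]
        intro l _
        rcases hall l with h | h
        · rw [h]; exact hlex
        · rw [h]; exact lexLE_refl _ _
      rw [h1, card_univ, Fintype.card_fin]
    · push_cast; ring

open Classical in
lemma pick (a : ℤ) (x : Fin 2 → ℚ) {k : ℕ} (hk : k ≤ 1) :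
    ∃ l : Fin 2, (univ.filter fun l' => ¬ lexLE a (x l) (x l')).card ≤ k ∧
      k + 1 ≤ (univ.filter fun l' => lexLE a (x l') (x l)).card ∧
      2 * wt a (x l) = ∑ l, wt a (x l) + (2 * k - 1) * |wt a (x 1) - wt a (x 0)| := by
  rcases lexLE_total a (x 0) (x 1) with h | h
  · obtain ⟨l, h1, h2, h3⟩ := pick_aux a x 0 1 (by decide) h hk
    refine ⟨l, h1, h2, ?_⟩
    rw [h3, abs_of_nonneg (sub_nonneg.2 (lexLE_wt h)), Fin.sum_univ_two]
  · obtain ⟨l, h1, h2, h3⟩ := pick_aux a x 1 0 (by decide) h hk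
    refine ⟨l, h1, h2, ?_⟩
    rw [h3, abs_sub_comm, abs_of_nonneg (sub_nonneg.2 (lexLE_wt h)), Fin.sum_univ_two]
    ring

lemma abs_wt_mem (a : ℤ) (x y : ℚ) : 0 ≤ |wt a x - wt a y| ∧ |wt a x - wt a y| ≤ 1 := by
  have h1 := Pool.Agent.W432.TC.wt_nonneg a x
  have h2 := Pool.Agent.W432.TC.wt_le_one a x
  have h3 := Pool.Agent.W432.TC.wt_nonneg a y
  have h4 := Pool.Agent.W432.TC.wt_le_one a y
  refine ⟨abs_nonneg _, abs_le.2 ⟨by linarith, by linarith⟩⟩

lemma nint_abs_wt (a : ℤ) (x y : ℚ) : nint |wt a x - wt a y| = nint (a * (x - y)) := by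
  obtain ⟨e, he⟩ := Pool.Agent.W432.TC.wt_eq a x
  obtain ⟨f, hf⟩ := Pool.Agent.W432.TC.wt_eq a y
  have h1 : (a : ℚ) * (x - y) = (wt a x - wt a y) + ((e - f : ℤ) : ℚ) := by
    push_cast
    linarith
  rw [h1, nint_add_int]
  rcases abs_choice (wt a x - wt a y) with h | h
  · rw [h]
  · rw [h, nint_neg]

/-- The gap in order two. -/
lemma defect_two {m N : ℕ} {lam : Fin m → Fin 2 → ℚ} {phi : Fin 2 → ℚ} {v : (ZMod N)ˣ} {a : ℤ}
    (hav : (a : ZMod N) = v) {δ : ℝ} (k : Fin m → ℕ) (hk : ∀ j, k j ≤ 1) {s : ℕ} (hs : s ≤ 1)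
    (q : ℤ) (hq : ∑ j, ∑ l, wt a (lam j l) - ∑ l, wt a (shifted m phi l) + ∑ j, (k j : ℚ) =
      2 * q + s)
    (hgap : (((∑ j, fk (k j) |wt a (lam j 1) - wt a (lam j 0)| -
      fk s |wt a (shifted m phi 1) - wt a (shifted m phi 0)|) / 2 : ℚ) : ℝ) ≤ δ) :
    DefectLE lam phi v δ := by
  classical
  choose i hi1 hi2 hi3 using fun j => pick a (lam j) (hk j)
  obtain ⟨s', hs1, hs2, hs3⟩ := pick a (shifted m phi) hs
  refine ⟨a, hav, i, s', q, ?_, ?_⟩
  · unfold CountCond
    have h1 : ∑ j, ((univ.filter fun l => ¬ lexLE a (lam j (i j)) (lam j l)).card : ℚ) ≤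
        ∑ j, (k j : ℚ) := sum_le_sum fun j _ => by exact_mod_cast hi1 j
    have h2 : ((s : ℚ) + 1) ≤
        ((univ.filter fun l => lexLE a (shifted m phi l) (shifted m phi s')).card : ℚ) := by
      exact_mod_cast hs2
    push_cast
    linarith
  · refine le_trans (le_of_eq ?_) hgap
    have h1 : (q : ℚ) + wt a (shifted m phi s') - ∑ j, wt a (lam j (i j)) =
        (∑ j, fk (k j) |wt a (lam j 1) - wt a (lam j 0)| -
      fk s |wt a (shifted m phi 1) - wt a (shifted m phi 0)|) / 2 := by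
      rw [fk_eq hs]
      simp only [fk_eq (hk _), sum_sub_distrib]
      have h2 : 2 * ∑ j, wt a (lam j (i j)) = ∑ j, ∑ l, wt a (lam j l) +
          ∑ j, (2 * (k j : ℚ) - 1) * |wt a (lam j 1) - wt a (lam j 0)| := by
        rw [mul_sum, ← sum_add_distrib]
        exact sum_congr rfl fun j _ => hi3 j
      linarith
    rw [h1]

/-- The difference of the exponents at the point `P`; `none` is the point at infinity. -/
def expDiff {m : ℕ} (lam : Fin m → Fin 2 → ℚ) (phi : Fin 2 → ℚ) : Option (Fin m) → ℚ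
  | none => phi 1 - phi 0
  | some j => lam j 1 - lam j 0

lemma exists_int_sum {m : ℕ} {lam : Fin m → Fin 2 → ℚ} {phi : Fin 2 → ℚ}
    (h : ∃ z : ℤ, ∑ j, ∑ l, lam j l - ∑ l, shifted m phi l = z) (a : ℤ) :
    ∃ z : ℤ, ∑ j, ∑ l, wt a (lam j l) - ∑ l, wt a (shifted m phi l) = z := by
  obtain ⟨z, hz⟩ := h
  choose e he using fun j l => Pool.Agent.W432.TC.wt_eq a (lam j l)
  choose f hf using fun l => Pool.Agent.W432.TC.wt_eq a (shifted m phi l)
  refine ⟨a * z - ∑ j, ∑ l, e j l + ∑ l, f l, ?_⟩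
  have h1 : ∀ j l, wt a (lam j l) = a * lam j l - e j l := fun j l => by rw [he]; ring
  have h2 : ∀ l, wt a (shifted m phi l) = a * shifted m phi l - f l := fun l => by rw [hf]; ring
  simp only [h1, h2, sum_sub_distrib, ← mul_sum]
  push_cast
  rw [← hz]
  ring

theorem defect_order_two {m N : ℕ} {lam : Fin m → Fin 2 → ℚ} {phi : Fin 2 → ℚ}
    (h : ∃ z : ℤ, ∑ j, ∑ l, lam j l - ∑ l, shifted m phi l = z) {v : (ZMod N)ˣ} {a : ℤ}
    (hav : (a : ZMod N) = v) {δ : ℝ} (P : Option (Fin m))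
    (hδ : (((∑ Q, nint (a * expDiff lam phi Q)) / 2 - nint (a * expDiff lam phi P) : ℚ) : ℝ) ≤ δ) :
    DefectLE lam phi v δ := by
  classical
  obtain ⟨c, hc⟩ := exists_int_sum h a
  obtain ⟨u, hu⟩ : ∃ u : Fin m → ℚ, ∀ j, u j = |wt a (lam j 1) - wt a (lam j 0)| :=
    ⟨_, fun _ => rfl⟩
  obtain ⟨w, hw⟩ : ∃ w : ℚ, w = |wt a (shifted m phi 1) - wt a (shifted m phi 0)| := ⟨_, rfl⟩
  have hν : ∀ j, nint (a * expDiff lam phi (some j)) = nint (u j) := fun j => by
    rw [hu, nint_abs_wt]; rfl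
  have hνi : nint (a * expDiff lam phi none) = nint w := by
    rw [hw, nint_abs_wt]
    congr 1
    unfold shifted expDiff
    ring
  have hsum : ∑ Q, nint (a * expDiff lam phi Q) = nint w + ∑ j, nint (u j) := by
    rw [Fintype.sum_option, hνi]
    simp only [hν]
  rw [hsum] at hδ
  choose k hk hk1 hk2 using fun j => exists_fk (u := u j) (by rw [hu]; exact (abs_wt_mem _ _ _).1)
    (by rw [hu]; exact (abs_wt_mem _ _ _).2)
  obtain ⟨s', hs', hs1', hs2'⟩ := exists_fk (u := w) (by rw [hw]; exact (abs_wt_mem _ _ _).1)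
    (by rw [hw]; exact (abs_wt_mem _ _ _).2)
  -- the numbers for infinity
  obtain ⟨s, hs, hs1, hs2⟩ : ∃ s : ℕ, s ≤ 1 ∧ fk s w = 1 - nint w ∧ fk (1 - s) w = nint w :=
    ⟨1 - s', by omega, hs2', by rw [Nat.sub_sub_self hs']; exact hs1'⟩
  have hhalf : ∀ x, nint x ≤ 1 / 2 := nint_le_half
  have key : ∀ (k' : Fin m → ℕ) (s₀ : ℕ), (∀ j, k' j ≤ 1) → s₀ ≤ 1 →
      (∃ q : ℤ, c + ∑ j, (k' j : ℤ) - s₀ = 2 * q) →
      (∑ j, fk (k' j) (u j) - fk s₀ w) / 2 ≤ (nint w + ∑ j, nint (u j)) / 2 -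
        nint (a * expDiff lam phi P) → DefectLE lam phi v δ := by
    rintro k' s₀ h1 h2 ⟨q, hq⟩ h3
    refine defect_two hav k' h1 h2 q ?_ ?_
    · rw [hc]
      have := congrArg (fun x : ℤ => (x : ℚ)) hq
      push_cast at this
      linarith
    · refine le_trans ?_ hδ
      have h4 : (∑ j, fk (k' j) |wt a (lam j 1) - wt a (lam j 0)| -
        fk s₀ |wt a (shifted m phi 1) - wt a (shifted m phi 0)|) / 2 ≤
          (nint w + ∑ j, nint (u j)) / 2 - nint (a * expDiff lam phi P) := by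
        rw [← hw]
        simp only [← hu]
        exact h3
      exact_mod_cast h4
  rcases Int.even_or_odd (c + ∑ j, (k j : ℤ) - s) with he | ho
  · obtain ⟨q, hq⟩ := he
    refine key k s hk hs ⟨q, by rw [hq]; ring⟩ ?_
    simp only [hk1]
    rw [hs1]
    have := hhalf (a * expDiff lam phi P)
    linarith
  · obtain ⟨q, hq⟩ := ho
    cases P with
    | none =>
      refine key k (1 - s) hk (by omega) ?_ ?_
      · interval_cases s
        · exact ⟨q, by push_cast at hq ⊢; linarith⟩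
        · exact ⟨q + 1, by push_cast at hq ⊢; linarith⟩
      · simp only [hk1]
        rw [hs2, hνi]
        linarith
    | some j₀ =>
      obtain ⟨k', hk'⟩ : ∃ k' : Fin m → ℕ, k' = Function.update k j₀ (1 - k j₀) := ⟨_, rfl⟩
      have e1 : k' j₀ = 1 - k j₀ := by rw [hk', Function.update_self]
      have e2 : ∀ j, j ≠ j₀ → k' j = k j := fun j hj => by
        rw [hk', Function.update_of_ne hj]
      have e3 : ∑ j, (k' j : ℤ) = ∑ j, (k j : ℤ) + 1 - 2 * k j₀ := by
        rw [← add_sum_erase univ (fun j => (k' j : ℤ)) (mem_univ j₀),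
          ← add_sum_erase univ (fun j => (k j : ℤ)) (mem_univ j₀), e1,
          sum_congr rfl fun j hj => by rw [e2 j (ne_of_mem_erase hj)]]
        have := hk j₀
        push_cast [Nat.cast_sub this]
        ring
      have e4 : ∑ j, fk (k' j) (u j) = ∑ j, nint (u j) + 1 - 2 * nint (u j₀) := by
        rw [← add_sum_erase univ (fun j => fk (k' j) (u j)) (mem_univ j₀),
          ← add_sum_erase univ (fun j => nint (u j)) (mem_univ j₀), e1, hk2,
          sum_congr rfl fun j hj => by rw [e2 j (ne_of_mem_erase hj), hk1 j]]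
        ring
      refine key k' s (fun j => ?_) hs ⟨q + 1 - k j₀, by rw [e3]; linarith⟩ ?_
      · by_cases hj : j = j₀
        · rw [hj, e1]; omega
        · rw [e2 j hj]; exact hk j
      · rw [e4, hs1, hν]
        linarith

end Pool.Agent.Helper9.PC
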