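import Pool.Graph.R_seed8.W432.WB.Descent

set_option autoImplicit false

/-!
The quantitative form of the Weyl inequalities at a geometric point of characteristic `p`: a solution
of small degree with prescribed zeros.
-/

open Polynomial

namespace Pool.Agent.Helper9.PC

open Pool.Agent.W432.PC (T Tc wt lexLE exists_rep)
open Pool.Agent.W432.WB (WDeg Full Sol sh RedExp resMat infMat core)

section

variable {n r : ℕ}

open Classical in
/-- The numbers `∑ wt (lam j l) - ∑ wt (phi l)`, `i`, `s`, `q` satisfy the counting condition. -/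
def CountCond (a : ℤ) (lam : Fin n → Fin r → ℚ) (phi : Fin r → ℚ) (i : Fin n → Fin r) (s : Fin r)
    (q : ℤ) : Prop :=
  ∑ j, ∑ l, wt a (lam j l) - ∑ l, wt a (phi l) +
      ∑ j, ((Finset.univ.filter fun l => ¬ lexLE a (lam j (i j)) (lam j l)).card : ℚ) <
    q * r + ((Finset.univ.filter fun l => lexLE a (phi l) (phi s)).card : ℚ)

/-- The key statement at a geometric point of characteristic `p`. -/
theorem weyl_pt {K : Type*} [Field K] [IsAlgClosed K] {p : ℕ}
    [Fact p.Prime] [CharP K p] {α : Fin n → K} (hα : Function.Injective α)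
    {B : Matrix (Fin r) (Fin r) K[X]} {u : Fin r → ℕ} (hB : WDeg n B u) (hfull : Full α B)
    {N : ℕ} (hN : 0 < N) {a : ℤ} (hap : (N : ℤ) ∣ a * p + 1)
    {lam : Fin n → Fin r → ℚ} {phi : Fin r → ℚ}
    {m : Fin n → Fin r → ℤ} (hm : ∀ j l, (N : ℚ) * lam j l = m j l)
    {m' : Fin r → ℤ} (hm' : ∀ l, (N : ℚ) * phi l = m' l)
    (hlam : ∀ j, RedExp N (resMat α B j).charpoly (m j))
    (hphi : RedExp N (infMat n B u).charpoly m')
    (htr : ∑ j, ∑ l, lam j l + ∑ i, (u i : ℚ) = ∑ l, phi l)
    {M : ℤ} (hM : ∀ j l, |m j l| ≤ M) (hM' : ∀ l, |m' l| ≤ M) (hp : 2 * M < p)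
    (i : Fin n → Fin r) (s : Fin r) (q : ℤ) (hq : CountCond a lam phi i s q) :
    ∃ (hh : Fin n → ℕ) (D : ℤ) (W : Fin r → K[X]),
      (∀ j, (hh j : ℚ) = p * wt a (lam j (i j)) + lam j (i j)) ∧
      ((D : ℚ) = p * q + (p * wt a (phi s) + phi s)) ∧ W ≠ 0 ∧
      Sol α B W ∧ (∀ i, ((sh u W i).natDegree : ℤ) ≤ D) ∧
      ∀ i, ∏ j, (X - C (α j)) ^ hh j ∣ W i := by
  classical
  unfold CountCond at hq
  have hp0 : (0 : ℤ) < p := by exact_mod_cast (Fact.out : p.Prime).pos
  have hpQ : (0 : ℚ) < p := by exact_mod_cast (Fact.out : p.Prime).pos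
  have hM0 : 0 ≤ M := (abs_nonneg _).trans (hM' s)
  have hNpos : (0 : ℤ) < N := by exact_mod_cast hN
  have hNQ : (0 : ℚ) < N := by exact_mod_cast hN
  choose e helt heq t ht using fun j l => exists_rep hN (hm j l)
    (lt_of_le_of_lt (hM j l) (by omega)) hap (p := p)
  choose f hflt hfeq t' ht' using fun l => exists_rep hN (hm' l)
    (lt_of_le_of_lt (hM' l) (by omega)) hap (p := p)
  have hpN : ¬ p ∣ N := by
    intro h1
    have h2 : (p : ℤ) ∣ a * p + 1 := (Int.natCast_dvd_natCast.mpr h1).trans hap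
    have h3 : (p : ℤ) ∣ 1 := by
      have h4 : (1 : ℤ) = (a * p + 1) - a * p := by ring
      rw [h4]
      exact dvd_sub h2 (Dvd.intro_left _ rfl)
    have h4 := Int.natAbs_dvd_natAbs.mpr h3
    simp only [Int.natAbs_natCast, Int.natAbs_one, Nat.dvd_one] at h4
    exact (Fact.out : p.Prime).one_lt.ne' h4
  have hNK : (N : K) ≠ 0 := fun h0 => hpN ((CharP.cast_eq_zero_iff K p N).mp h0)
  have hcastK : ∀ (e t : ℤ) (m : ℤ), (N : ℤ) * e = m + p * t → (N : K) * (e : K) = (m : K) := by
    intro e t m h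
    have h1 := congrArg (fun x : ℤ => (x : K)) h
    push_cast at h1
    rw [CharP.cast_eq_zero K p, zero_mul, add_zero] at h1
    exact h1
  have hAc : ∀ j, (resMat α B j).charpoly = ∏ l, (X - C ((e j l : ℕ) : K)) := fun j =>
    (hlam j).eq_prod hNK fun l => by
      have := hcastK _ _ _ (ht j l)
      exact_mod_cast this
  have hAsc : (infMat n B u).charpoly = ∏ l, (X - C ((f l : ℕ) : K)) :=
    hphi.eq_prod hNK fun l => by
      have := hcastK _ _ _ (ht' l)
      exact_mod_cast this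
  -- weights in terms of t
  have hwt : ∀ j l, (t j l : ℚ) = N * wt a (lam j l) := by
    intro j l
    have h1 : ((N : ℤ) * e j l : ℤ) = m j l + p * t j l := ht j l
    have h2 : (N : ℚ) * e j l = m j l + p * t j l := by exact_mod_cast h1
    rw [heq j l, ← hm j l] at h2
    have h3 : (p : ℚ) * (N * wt a (lam j l)) = p * t j l := by linarith
    exact (mul_left_cancel₀ hpQ.ne' h3).symm
  have hwt' : ∀ l, (t' l : ℚ) = N * wt a (phi l) := by
    intro l
    have h1 : ((N : ℤ) * f l : ℤ) = m' l + p * t' l := ht' l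
    have h2 : (N : ℚ) * f l = m' l + p * t' l := by exact_mod_cast h1
    rw [hfeq l, ← hm' l] at h2
    have h3 : (p : ℚ) * (N * wt a (phi l)) = p * t' l := by linarith
    exact (mul_left_cancel₀ hpQ.ne' h3).symm
  -- monotonicity
  have hmono : ∀ j l l', lexLE a (lam j l) (lam j l') → e j l ≤ e j l' := by
    intro j l l' hll
    have h1 := ht j l
    have h2 := ht j l'
    have h3 := (abs_le.mp (hM j l)).2
    have h4 := (abs_le.mp (hM j l')).1
    rcases hll with h | ⟨h, h'⟩
    · have h5 : t j l < t j l' := by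
        have : (t j l : ℚ) < t j l' := by
          rw [hwt, hwt]; exact mul_lt_mul_of_pos_left h hNQ
        exact_mod_cast this
      have h6 : (N : ℤ) * e j l ≤ N * e j l' := by
        have h7 : (p : ℤ) * t j l + p ≤ p * t j l' := by nlinarith
        linarith
      exact_mod_cast le_of_mul_le_mul_left h6 hNpos
    · have h5 : (e j l : ℚ) ≤ e j l' := by rw [heq, heq, h]; linarith
      exact_mod_cast h5
  have hmono' : ∀ l l', lexLE a (phi l) (phi l') → f l ≤ f l' := by
    intro l l' hll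
    have h1 := ht' l
    have h2 := ht' l'
    have h3 := (abs_le.mp (hM' l)).2
    have h4 := (abs_le.mp (hM' l')).1
    rcases hll with h | ⟨h, h'⟩
    · have h5 : t' l < t' l' := by
        have : (t' l : ℚ) < t' l' := by
          rw [hwt', hwt']; exact mul_lt_mul_of_pos_left h hNQ
        exact_mod_cast this
      have h6 : (N : ℤ) * f l ≤ N * f l' := by
        have h7 : (p : ℤ) * t' l + p ≤ p * t' l' := by nlinarith
        linarith
      exact_mod_cast le_of_mul_le_mul_left h6 hNpos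
    · have h5 : (f l : ℚ) ≤ f l' := by rw [hfeq, hfeq, h]; linarith
      exact_mod_cast h5
  -- the integer c
  obtain ⟨c, hc⟩ : ∃ c : ℤ, (p : ℤ) * c = ∑ j, ∑ l, (e j l : ℤ) + ∑ i, (u i : ℤ) - ∑ l, (f l : ℤ) := by
    have h1 : (((∑ j, ∑ l, (e j l : ℤ) + ∑ i, (u i : ℤ) - ∑ l, (f l : ℤ) : ℤ)) : ℚ) =
        p * (∑ j, ∑ l, wt a (lam j l) - ∑ l, wt a (phi l)) := by
      push_cast
      simp only [heq, hfeq, Finset.sum_add_distrib, ← Finset.mul_sum]
      linear_combination htr
    have h2 : (N : ℚ) * (∑ j, ∑ l, wt a (lam j l) - ∑ l, wt a (phi l)) =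
        ((∑ j, ∑ l, t j l - ∑ l, t' l : ℤ) : ℚ) := by
      push_cast
      simp only [hwt, hwt', ← Finset.mul_sum]
      ring
    have h3 : (N : ℤ) * (∑ j, ∑ l, (e j l : ℤ) + ∑ i, (u i : ℤ) - ∑ l, (f l : ℤ)) =
        p * (∑ j, ∑ l, t j l - ∑ l, t' l) := by
      have h4 : ((N : ℚ)) * (((∑ j, ∑ l, (e j l : ℤ) + ∑ i, (u i : ℤ) - ∑ l, (f l : ℤ) : ℤ)) : ℚ) =
          p * ((∑ j, ∑ l, t j l - ∑ l, t' l : ℤ) : ℚ) := by
        rw [h1, ← h2]; ring
      exact_mod_cast h4
    have h4 : (p : ℤ) ∣ ∑ j, ∑ l, (e j l : ℤ) + ∑ i, (u i : ℤ) - ∑ l, (f l : ℤ) := by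
      have hpp : Prime (p : ℤ) := Nat.prime_iff_prime_int.mp Fact.out
      rcases hpp.dvd_or_dvd (Dvd.intro _ h3.symm) with h5 | h5
      · exact absurd (Int.natCast_dvd_natCast.mp h5) hpN
      · exact h5
    obtain ⟨c, hc⟩ := h4
    exact ⟨c, hc.symm⟩
  have hcw : (c : ℚ) = ∑ j, ∑ l, wt a (lam j l) - ∑ l, wt a (phi l) := by
    have h1 : ((p : ℤ) * c : ℚ) =
        ∑ j, ∑ l, (e j l : ℚ) + ∑ i, (u i : ℚ) - ∑ l, (f l : ℚ) := by exact_mod_cast hc
    simp only [heq, hfeq, Finset.sum_add_distrib, ← Finset.mul_sum] at h1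
    have h2 : (p : ℚ) * c = p * (∑ j, ∑ l, wt a (lam j l) - ∑ l, wt a (phi l)) := by
      push_cast at h1
      linear_combination h1 + htr
    exact mul_left_cancel₀ hpQ.ne' h2
  have hcount : ∑ j, ((Finset.univ.filter fun l => e j l < e j (i j)).card : ℤ) + c <
      ∑ l, (((p : ℤ) * q + f s - f l) / p + 1) := by
    have h1 : ∀ j, ((Finset.univ.filter fun l => e j l < e j (i j)).card : ℤ) ≤
        ((Finset.univ.filter fun l => ¬ lexLE a (lam j (i j)) (lam j l)).card : ℤ) := by
      intro j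
      have h2 : (Finset.univ.filter fun l => e j l < e j (i j)) ⊆
          (Finset.univ.filter fun l => ¬ lexLE a (lam j (i j)) (lam j l)) := by
        intro l hl
        rw [Finset.mem_filter] at hl ⊢
        exact ⟨hl.1, fun hcon => absurd (hmono j _ _ hcon) (not_le.mpr hl.2)⟩
      exact_mod_cast Finset.card_le_card h2
    have h2 : ∀ i, q + (if f i ≤ f s then 1 else 0) ≤ ((p : ℤ) * q + f s - f i) / p + 1 := by
      intro i
      have h3 : (p : ℤ) * q + f s - f i = (f s - f i) + p * q := by ring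
      rw [h3, Int.add_mul_ediv_left _ _ hp0.ne']
      have h4 := hflt i
      have h5 := hflt s
      split_ifs with h6
      · have h7 : (0 : ℤ) ≤ ((f s : ℤ) - f i) / p := Int.ediv_nonneg (by omega) hp0.le
        linarith
      · have h7 : (-1 : ℤ) ≤ ((f s : ℤ) - f i) / p := by
          rw [Int.le_ediv_iff_mul_le hp0]; omega
        linarith
    have h3 : ((Finset.univ.filter fun l => lexLE a (phi l) (phi s)).card : ℤ) ≤
        (Finset.univ.filter fun i => f i ≤ f s).card := by
      have h4 : (Finset.univ.filter fun l => lexLE a (phi l) (phi s)) ⊆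
          (Finset.univ.filter fun i => f i ≤ f s) := by
        intro l hl
        rw [Finset.mem_filter] at hl ⊢
        exact ⟨hl.1, hmono' _ _ hl.2⟩
      exact_mod_cast Finset.card_le_card h4
    have h4 : ∑ j, ((Finset.univ.filter fun l => ¬ lexLE a (lam j (i j)) (lam j l)).card : ℤ) + c <
        q * r + ((Finset.univ.filter fun l => lexLE a (phi l) (phi s)).card : ℤ) := by
      have h5 : ((∑ j, ((Finset.univ.filter fun l => ¬ lexLE a (lam j (i j)) (lam j l)).card : ℤ) + c : ℤ) : ℚ) <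
          ((q * r + ((Finset.univ.filter fun l => lexLE a (phi l) (phi s)).card : ℤ) : ℤ) : ℚ) := by
        push_cast
        rw [hcw]
        linarith
      exact_mod_cast h5
    calc ∑ j, ((Finset.univ.filter fun l => e j l < e j (i j)).card : ℤ) + c
        ≤ ∑ j, ((Finset.univ.filter fun l => ¬ lexLE a (lam j (i j)) (lam j l)).card : ℤ) + c := by
          have := Finset.sum_le_sum fun j (_ : j ∈ Finset.univ) => h1 j
          linarith
      _ < q * r + ((Finset.univ.filter fun l => lexLE a (phi l) (phi s)).card : ℤ) := h4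
      _ ≤ q * r + ((Finset.univ.filter fun i => f i ≤ f s).card : ℤ) := by linarith
      _ = ∑ i, (q + (if f i ≤ f s then 1 else 0)) := by
          rw [Finset.sum_add_distrib, Finset.sum_const, Finset.card_univ, Fintype.card_fin,
            nsmul_eq_mul, Finset.sum_boole]
          ring
      _ ≤ ∑ i, (((p : ℤ) * q + f s - f i) / p + 1) := Finset.sum_le_sum fun i _ => h2 i
  obtain ⟨W, h1, h2, h3, h4⟩ := core hα hfull e helt hAc hB f hflt hAsc c hc
    (fun j => e j (i j)) (fun j => (helt j _).le) ((p : ℤ) * q + f s) hcount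
  refine ⟨fun j => e j (i j), (p : ℤ) * q + f s, W, fun j => heq j _, ?_, h1, h2, h3, h4⟩
  push_cast
  rw [hfeq s]

end

end Pool.Agent.Helper9.PC
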